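import Pool.Agent.Q88.RF.Ser

/-!
# The dual version
-/

set_option autoImplicit false

namespace Pool.Agent.Q88.RF

open Pool.Agent.Q98.RB
open Module Filter Topology Set Metric

variable {X Y Z : Type} [NormedAddCommGroup X] [NormedSpace ℂ X] [NormedAddCommGroup Y]
  [NormedSpace ℂ Y] [NormedAddCommGroup Z] [NormedSpace ℂ Z]

/-- the adjoint of an operator between two spaces -/
noncomputable def tq (S : Y →L[ℂ] X) : StrongDual ℂ X →L[ℂ] StrongDual ℂ Y :=
  (ContinuousLinearMap.compL ℂ Y X ℂ).flip S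

theorem tq_apply (S : Y →L[ℂ] X) (w : StrongDual ℂ X) (y : Y) : tq S w y = w (S y) := rfl

theorem Fr.tq {A : Y →L[ℂ] X} (h : Fr A) : Fr (RF.tq A) := by
  have hF : FiniteDimensional ℂ (LinearMap.range (A : Y →ₗ[ℂ] X)) := by
    exact Module.Finite.iff_fg.2 h
  set F := LinearMap.range (A : Y →ₗ[ℂ] X) with hFdef
  let L : StrongDual ℂ X →ₗ[ℂ] Module.Dual ℂ F :=
    { toFun := fun w => (w : X →ₗ[ℂ] ℂ) ∘ₗ F.subtype
      map_add' := fun f g => rfl
      map_smul' := fun c f => rfl }
  have hker : LinearMap.ker L ≤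
      LinearMap.ker (RF.tq A : StrongDual ℂ X →ₗ[ℂ] StrongDual ℂ Y) := by
    intro w hw
    rw [LinearMap.mem_ker] at hw ⊢
    ext y
    have h1 := congrArg (fun l : Module.Dual ℂ F => l ⟨A y, LinearMap.mem_range_self _ y⟩) hw
    exact h1
  have hD : FiniteDimensional ℂ (Module.Dual ℂ F) := dual_fd F
  have hD' : FiniteDimensional ℂ (LinearMap.range L) :=
    Submodule.finiteDimensional_of_le (le_top : LinearMap.range L ≤ ⊤)
  have h1 : FiniteDimensional ℂ (StrongDual ℂ X ⧸ LinearMap.ker L) :=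
    LinearEquiv.finiteDimensional (LinearMap.quotKerEquivRange L).symm
  have h2 : FiniteDimensional ℂ (StrongDual ℂ X ⧸
      LinearMap.ker (RF.tq A : StrongDual ℂ X →ₗ[ℂ] StrongDual ℂ Y)) :=
    Module.Finite.of_surjective (Submodule.factor hker) (Submodule.factor_surjective hker)
  have h3 : FiniteDimensional ℂ
      (LinearMap.range (RF.tq A : StrongDual ℂ X →ₗ[ℂ] StrongDual ℂ Y)) :=
    LinearEquiv.finiteDimensional (LinearMap.quotKerEquivRange _)
  exact Module.Finite.iff_fg.1 h3

theorem fred_tq {S : Y →L[ℂ] X} (hS : S.IsFredholm) : (tq S).IsFredholm := by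
  obtain ⟨V, h1, h2⟩ := fred_iff.1 hS
  refine fred_iff.2 ⟨tq V, ?_, ?_⟩
  · have e : (tq V).comp (tq S) - 1 = tq (S.comp V - 1) := by
      ext w x
      show w (S (V x)) - w x = w (S (V x) - x)
      rw [map_sub]
    rw [e]
    exact h2.tq
  · have e : (tq S).comp (tq V) - 1 = tq (V.comp S - 1) := by
      ext w x
      show w (V (S x)) - w x = w (V (S x) - x)
      rw [map_sub]
    rw [e]
    exact h1.tq

/-- from the adjoint to the operator -/
theorem conc_of_tr [CompleteSpace X] (hX : Refl X) {T : X →L[ℂ] X} (h : Conc (tr T)) :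
    Conc T := by
  rcases h with ⟨c, hc⟩ | ⟨V, h1, h2, h3, h4⟩
  · left
    refine ⟨c, ?_⟩
    ext x
    refine (SeparatingDual.eq_iff_forall_dual_eq (R := ℂ)).2 fun w => ?_
    have := congrArg (fun A : StrongDual ℂ X →L[ℂ] StrongDual ℂ X => A w x) hc
    have h5 : w (T x) = c * w x := this
    rw [h5]
    show c * w x = w (c • x)
    rw [map_smul, smul_eq_mul]
  · right
    let W : Submodule ℂ X :=
      { carrier := {x | ∀ w ∈ V, w x = 0}
        add_mem' := by
          intro x y hx hy w hw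
          rw [map_add, hx w hw, hy w hw, add_zero]
        zero_mem' := fun w _ => map_zero w
        smul_mem' := by
          intro c x hx w hw
          rw [map_smul, hx w hw, smul_zero] }
    refine ⟨W, ?_, ?_, ?_, ?_⟩
    · have e : (W : Set X) = ⋂ w ∈ V, {x | w x = 0} := by
        ext x
        simp only [mem_iInter, mem_ofPred_eq]
        exact Iff.rfl
      rw [e]
      exact isClosed_biInter fun w _ => isClosed_eq w.continuous continuous_const
    · -- nonzero
      intro hW
      apply h3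
      by_contra hne
      obtain ⟨w₀, hw₀⟩ : ∃ w₀, w₀ ∉ V := by
        by_contra hcon
        push Not at hcon
        exact hne (eq_top_iff.2 fun w _ => hcon w)
      obtain ⟨F, hF1, hF2⟩ : ∃ F : StrongDual ℂ (StrongDual ℂ X), F w₀ ≠ 0 ∧ ∀ w ∈ V, F w = 0 := by
        have : IsClosed (V : Set (StrongDual ℂ X)) := h1
        have hne : V.mkQL w₀ ≠ 0 := fun h0 => hw₀ ((Submodule.Quotient.mk_eq_zero V).1 h0)
        obtain ⟨g, hg⟩ := SeparatingDual.exists_ne_zero (R := ℂ) hne
        refine ⟨g.comp V.mkQL, hg, fun w hw => ?_⟩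
        have h5 : V.mkQL w = 0 := (Submodule.Quotient.mk_eq_zero V).2 hw
        show g (V.mkQL w) = 0
        rw [h5, map_zero]
      obtain ⟨x, rfl⟩ := hX F
      have hx : x ∈ W := fun w hw => hF2 w hw
      rw [hW, Submodule.mem_bot] at hx
      rw [hx, map_zero] at hF1
      exact hF1 rfl
    · -- not everything
      intro hW
      apply h2
      rw [eq_bot_iff]
      intro w hw
      rw [Submodule.mem_bot]
      ext x
      have hx : x ∈ W := by rw [hW]; trivial
      exact hx w hw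
    · intro Q hQ x hx w hw
      have h5 : tr Q * tr T = tr T * tr Q := by
        ext w x
        show w (T (Q x)) = w (Q (T x))
        have := congrArg (fun A : X →L[ℂ] X => A x) hQ
        have h6 : Q (T x) = T (Q x) := this
        rw [h6]
      exact hx _ (h4 (tr Q) h5 w hw)

theorem HC.tr {N : Y →L[ℂ] Y} (hN : HC N) : HC (Q98.RB.tr N) := by
  obtain ⟨R, Ψ, hΨ⟩ := hN
  exact ⟨R, trΨ Ψ, hΨ.tr⟩

theorem tr_pow (N : Y →L[ℂ] Y) (k : ℕ) : (tr N) ^ k = tr (N ^ k) := by
  induction k with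
  | zero =>
    ext w y
    rfl
  | succ k ih =>
    ext w y
    rw [pow_succ, ih, pow_succ']
    rfl

theorem tr_norm (N : Y →L[ℂ] Y) : ‖tr N‖ ≤ ‖N‖ := by
  refine ContinuousLinearMap.opNorm_le_bound _ (norm_nonneg N) fun w => ?_
  rw [mul_comm]
  exact ContinuousLinearMap.opNorm_comp_le w N

/-- **The dual version.** -/
theorem ser_dual [CompleteSpace X] [CompleteSpace Y] (hX : Refl X) (hY : Refl Y) {N : Y →L[ℂ] Y}
    (hN : HC N) {T : X →L[ℂ] X} {S : Y →L[ℂ] X} (hS : S.IsFredholm) (u : ℕ → X)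
    (w : Y →L[ℂ] ℂ) {C ρ : ℝ} (hρ : 0 < ρ) (hTρ : ∀ k, ‖T ^ k‖ ≤ C * ρ ^ k)
    (hNρ : ∀ k, ‖N ^ k‖ ≤ C * ρ ^ k) (hu : Summable fun n : ℕ => (n + 1) * ρ ^ n * ‖u n‖)
    (h : ∀ y, HasSum (fun n => w ((N ^ n) y) • u n) (T (S y) - S (N y))) : Conc T := by
  have hC : 0 ≤ C := by
    have := (norm_nonneg _).trans (hTρ 0)
    simpa using this
  refine conc_of_tr hX (ser hY.dual (HC.tr hN) (T := tr T) (fred_tq hS) w
    (fun n => NormedSpace.inclusionInDoubleDual ℂ X (u n)) (C := C) hρ ?_ ?_ ?_ ?_)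
  · intro k
    rw [tr_pow]
    exact (tr_norm _).trans (hTρ k)
  · intro k
    rw [tr_pow]
    exact (tr_norm _).trans (hNρ k)
  · refine Summable.of_nonneg_of_le (fun n => by positivity) (fun n => ?_) hu
    exact mul_le_mul_of_nonneg_left (NormedSpace.double_dual_bound ℂ X (u n)) (by positivity)
  · intro f
    -- norm convergence of the series of functionals
    have h1 : Summable fun n => f (u n) • (tr N ^ n) w := by
      refine Summable.of_norm_bounded (hu.mul_left (‖f‖ * C * ‖w‖)) fun n => ?_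
      rw [norm_smul, tr_pow]
      have e1 : ‖(tr (N ^ n)) w‖ ≤ C * ρ ^ n * ‖w‖ :=
        ((tr (N ^ n)).le_opNorm w).trans
          (mul_le_mul_of_nonneg_right ((tr_norm _).trans (hNρ n)) (norm_nonneg w))
      calc ‖f (u n)‖ * ‖(tr (N ^ n)) w‖ ≤ (‖f‖ * ‖u n‖) * (C * ρ ^ n * ‖w‖) :=
            mul_le_mul (f.le_opNorm _) e1 (norm_nonneg _) (by positivity)
        _ = ‖f‖ * C * ‖w‖ * (ρ ^ n * ‖u n‖) := by ring
        _ ≤ ‖f‖ * C * ‖w‖ * ((n + 1) * ρ ^ n * ‖u n‖) := by
            refine mul_le_mul_of_nonneg_left ?_ (by positivity)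
            have : (0:ℝ) ≤ n * (ρ ^ n * ‖u n‖) := by positivity
            nlinarith
    obtain ⟨g, hg⟩ := h1
    have h2 : g = tq S (tr T f) - tr N (tq S f) := by
      ext y
      have h3 : HasSum (fun n => f (u n) * w ((N ^ n) y)) (g y) := by
        have h4 := hg.mapL (ContinuousLinearMap.apply ℂ ℂ y)
        have h5 : (fun n => (ContinuousLinearMap.apply ℂ ℂ y) (f (u n) • (tr N ^ n) w)) =
            fun n => f (u n) * w ((N ^ n) y) := by
          funext n
          rw [tr_pow]
          rfl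
        rw [h5] at h4
        exact h4
      have h6 := (h y).mapL f
      have h7 : (fun n => f (w ((N ^ n) y) • u n)) = fun n => f (u n) * w ((N ^ n) y) := by
        funext n
        rw [map_smul, smul_eq_mul, mul_comm]
      rw [h7] at h6
      rw [h3.unique h6, map_sub]
      rfl
    rw [← h2]
    exact hg

end Pool.Agent.Q88.RF
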