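import Pool.Agent.Q88.RF.DualV

/-!
# Consequences: finite rank perturbations, compressions
-/

set_option autoImplicit false

namespace Pool.Agent.Q88.RF

open Pool.Agent.Q98.RB
open Module Filter Topology Set Metric

variable {X Y : Type} [NormedAddCommGroup X] [NormedSpace ℂ X] [NormedAddCommGroup Y]
  [NormedSpace ℂ Y]

theorem HC.of_compact {N : Y →L[ℂ] Y} (K : Set ℂ) (hK : IsCompact K)
    (Ψ : C(K, ℂ) →ₐ[ℂ] (Y →L[ℂ] Y)) (hc : Continuous Ψ)
    (hid : Ψ ⟨Subtype.val, continuous_subtype_val⟩ = N) : HC N := by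
  obtain ⟨R, hR⟩ := hK.isBounded.subset_closedBall (0:ℂ)
  have hR' : K ⊆ closedBall (0:ℂ) (|R| + 1) :=
    hR.trans (closedBall_subset_closedBall (by have := le_abs_self R; linarith))
  let f : C(K, DD (|R| + 1)) := ⟨fun z => ⟨z, hR' z.2⟩, by fun_prop⟩
  refine ⟨|R| + 1, Ψ.comp (ContinuousMap.compRightAlgHom ℂ ℂ f), by positivity, ?_, ?_⟩
  · exact hc.comp (ContinuousMap.compRightAlgHom_continuous ℂ ℂ f)
  · rw [← hid]
    rfl

theorem pow_norm (T : X →L[ℂ] X) (N : Y →L[ℂ] Y) : ∃ ρ : ℝ, 0 < ρ ∧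
    (∀ k : ℕ, ‖T ^ k‖ ≤ 1 * ρ ^ k) ∧ ∀ k : ℕ, ‖N ^ k‖ ≤ 1 * ρ ^ k := by
  refine ⟨‖T‖ + ‖N‖ + 1, by positivity, fun k => ?_, fun k => ?_⟩
  · rw [one_mul]
    induction k with
    | zero =>
      rw [pow_zero, pow_zero]
      exact ContinuousLinearMap.norm_id_le
    | succ k ih =>
      rw [pow_succ, pow_succ]
      refine (norm_mul_le _ _).trans (mul_le_mul ih ?_ (norm_nonneg _) (by positivity))
      have := norm_nonneg N
      linarith
  · rw [one_mul]
    induction k with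
    | zero =>
      rw [pow_zero, pow_zero]
      exact ContinuousLinearMap.norm_id_le
    | succ k ih =>
      rw [pow_succ, pow_succ]
      refine (norm_mul_le _ _).trans (mul_le_mul ih ?_ (norm_nonneg _) (by positivity))
      have := norm_nonneg T
      linarith

/-- finitely many terms -/
theorem fin_ser [CompleteSpace X] [CompleteSpace Y] (hY : Refl Y) {N : Y →L[ℂ] Y} (hN : HC N)
    {T : X →L[ℂ] X} {S : X →L[ℂ] Y} (hS : S.IsFredholm) (u : Y) (m : ℕ) (w : ℕ → X →L[ℂ] ℂ)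
    (h : ∀ x, S (T x) = N (S x) + ∑ n ∈ Finset.range m, w n x • (N ^ n) u) : Conc T := by
  obtain ⟨ρ, hρ, hT, hN'⟩ := pow_norm T N
  refine ser hY hN hS u (fun n => if n < m then w n else 0) hρ hT hN' ?_ fun x => ?_
  · refine summable_of_ne_finset_zero (s := Finset.range m) fun n hn => ?_
    rw [Finset.mem_range] at hn
    rw [if_neg hn, norm_zero, mul_zero]
  · have h1 : S (T x) - N (S x) = ∑ n ∈ Finset.range m,
        (if n < m then w n else 0 : X →L[ℂ] ℂ) x • (N ^ n) u := by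
      rw [h x, add_sub_cancel_left]
      refine Finset.sum_congr rfl fun n hn => ?_
      rw [if_pos (Finset.mem_range.1 hn)]
    rw [h1]
    refine hasSum_sum_of_ne_finset_zero fun n hn => ?_
    rw [Finset.mem_range] at hn
    rw [if_neg hn]
    show (0 : ℂ) • _ = _
    rw [zero_smul]

theorem fin_ser_dual [CompleteSpace X] [CompleteSpace Y] (hX : Refl X) (hY : Refl Y)
    {N : Y →L[ℂ] Y} (hN : HC N) {T : X →L[ℂ] X} {S : Y →L[ℂ] X} (hS : S.IsFredholm) (m : ℕ)
    (u : ℕ → X) (w : Y →L[ℂ] ℂ)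
    (h : ∀ y, T (S y) = S (N y) + ∑ n ∈ Finset.range m, w ((N ^ n) y) • u n) : Conc T := by
  obtain ⟨ρ, hρ, hT, hN'⟩ := pow_norm T N
  refine ser_dual hX hY hN hS (fun n => if n < m then u n else 0) w hρ hT hN' ?_ fun y => ?_
  · refine summable_of_ne_finset_zero (s := Finset.range m) fun n hn => ?_
    rw [Finset.mem_range] at hn
    rw [if_neg hn, norm_zero, mul_zero]
  · have h1 : T (S y) - S (N y) = ∑ n ∈ Finset.range m,
        w ((N ^ n) y) • (if n < m then u n else 0) := by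
      rw [h y, add_sub_cancel_left]
      refine Finset.sum_congr rfl fun n hn => ?_
      rw [if_pos (Finset.mem_range.1 hn)]
    rw [h1]
    refine hasSum_sum_of_ne_finset_zero fun n hn => ?_
    rw [Finset.mem_range] at hn
    rw [if_neg hn, smul_zero]

theorem fred_one_sub {Q : X →L[ℂ] X} (hQ : Fr Q) : (1 - Q).IsFredholm := by
  refine fred_iff.2 ⟨1, ?_, ?_⟩
  · have e : (1 : X →L[ℂ] X).comp (1 - Q) - 1 = 0 - Q := by
      ext x
      simp
    rw [e]
    exact Fr.zero.sub hQ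
  · have e : (1 - Q).comp (1 : X →L[ℂ] X) - 1 = 0 - Q := by
      ext x
      simp
    rw [e]
    exact Fr.zero.sub hQ

theorem pow_comm_apply {N Q : X →L[ℂ] X} (h : Q * N = N * Q) (n : ℕ) (x : X) :
    (N ^ n) (Q x) = Q ((N ^ n) x) := by
  have h1 : Q * N ^ n = N ^ n * Q := (Commute.pow_right (show Commute Q N from h) n)
  exact (congrArg (fun A : X →L[ℂ] X => A x) h1).symm

/-- finite rank perturbations: rows -/
theorem rows [CompleteSpace X] (hX : Refl X) {N : X →L[ℂ] X} (hN : HC N) {T Q : X →L[ℂ] X}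
    (hQ : Fr Q) (hQQ : Q * Q = Q) (hQN : Q * N = N * Q) (u : X) (m : ℕ) (w : ℕ → X →L[ℂ] ℂ)
    (h : ∀ x, T x - N x - ∑ n ∈ Finset.range m, w n x • (N ^ n) u ∈
      LinearMap.range (Q : X →ₗ[ℂ] X)) : Conc T := by
  refine fin_ser hX hN (fred_one_sub hQ) ((1 - Q) u) m w fun x => ?_
  obtain ⟨z, hz⟩ := h x
  have hz' : Q z = T x - N x - ∑ n ∈ Finset.range m, w n x • (N ^ n) u := hz
  have hQz : (1 - Q) (Q z) = 0 := by
    have := congrArg (fun A : X →L[ℂ] X => A z) hQQ
    have h1 : Q (Q z) = Q z := this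
    show Q z - Q (Q z) = 0
    rw [h1, sub_self]
  have hN1 : (1 - Q) (N x) = N ((1 - Q) x) := by
    have := congrArg (fun A : X →L[ℂ] X => A x) hQN
    have h1 : Q (N x) = N (Q x) := this
    show N x - Q (N x) = N (x - Q x)
    rw [h1, map_sub]
  have hT : T x = N x + ∑ n ∈ Finset.range m, w n x • (N ^ n) u + Q z := by
    rw [hz']
    abel
  rw [hT, map_add, map_add, hQz, add_zero, hN1, map_sum]
  congr 1
  refine Finset.sum_congr rfl fun n _ => ?_
  rw [map_smul]
  congr 1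
  show (N ^ n) u - Q ((N ^ n) u) = (N ^ n) (u - Q u)
  rw [map_sub, pow_comm_apply hQN]

/-- finite rank perturbations: columns -/
theorem cols [CompleteSpace X] (hX : Refl X) {N : X →L[ℂ] X} (hN : HC N) {T Q G : X →L[ℂ] X}
    (hQ : Fr Q) (hQQ : Q * Q = Q) (hQN : Q * N = N * Q) (w : X →L[ℂ] ℂ) (m : ℕ) (u : ℕ → X)
    (h : ∀ x, T x = N x + ∑ n ∈ Finset.range m, w ((N ^ n) x) • u n + G (Q x)) : Conc T := by
  refine fin_ser_dual hX hX hN (fred_one_sub hQ) m u (w.comp (1 - Q)) fun x => ?_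
  have h1 : Q ((1 - Q) x) = 0 := by
    have := congrArg (fun A : X →L[ℂ] X => A x) hQQ
    have h1 : Q (Q x) = Q x := this
    show Q (x - Q x) = 0
    rw [map_sub, h1, sub_self]
  have hN1 : (1 - Q) (N x) = N ((1 - Q) x) := by
    have := congrArg (fun A : X →L[ℂ] X => A x) hQN
    have h1 : Q (N x) = N (Q x) := this
    show N x - Q (N x) = N (x - Q x)
    rw [h1, map_sub]
  rw [h, h1, map_zero, add_zero, hN1]
  congr 1
  refine Finset.sum_congr rfl fun n _ => ?_
  congr 1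
  show w ((N ^ n) (x - Q x)) = w ((N ^ n) x - Q ((N ^ n) x))
  rw [map_sub, pow_comm_apply hQN]

/-- compressions -/
theorem compr [CompleteSpace X] [CompleteSpace Y] (hY : Refl Y) {N : Y →L[ℂ] Y} (hN : HC N)
    {J : X →L[ℂ] Y} {P : Y →L[ℂ] X} (hPJ : ∀ x, P (J x) = x) (u : Y) (m : ℕ)
    (w : ℕ → Y →L[ℂ] ℂ) (h : ∀ y, y - J (P y) = ∑ n ∈ Finset.range m, w n y • (N ^ n) u) :
    Conc (P.comp (N.comp J)) := by
  have hJ : J.IsFredholm := by
    refine fred_iff.2 ⟨P, ?_, ?_⟩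
    · have e : P.comp J - 1 = 0 := by
        ext x
        show P (J x) - x = 0
        rw [hPJ, sub_self]
      rw [e]
      exact Fr.zero
    · have e : J.comp P - 1 = ∑ n ∈ Finset.range m, (-(w n)).smulRight ((N ^ n) u) := by
        ext y
        rw [sum_apply]
        show J (P y) - y = ∑ n ∈ Finset.range m, (-(w n y)) • (N ^ n) u
        simp only [neg_smul, Finset.sum_neg_distrib]
        rw [← h y]
        abel
      rw [e]
      exact Fr.sum _ fun n _ => Fr.rank _ _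
  refine fin_ser hY hN hJ u m (fun n => -((w n).comp (N.comp J))) fun x => ?_
  have h1 := h (N (J x))
  show J (P (N (J x))) = N (J x) + ∑ n ∈ Finset.range m, (-(w n (N (J x)))) • (N ^ n) u
  simp only [neg_smul, Finset.sum_neg_distrib]
  rw [← h1]
  abel

end Pool.Agent.Q88.RF
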