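import Pool.Agent.Q98.RB.Main

/-!
# From rank one to higher rank: the intertwining operator

If `(1 + K) T = N (1 + K) + u ⊗ v` with a compact `K`, then the question of hyperinvariant subspaces
for `T` reduces to that for rank one perturbations of `N`.
-/

set_option autoImplicit false

namespace Pool.Agent.Q88.RF

open Pool.Agent.Q98.RB (tr tr_apply T1 T1_apply HasHyp Refl)
open Module

variable {X : Type} [NormedAddCommGroup X] [NormedSpace ℂ X]

/-- scalar, or with a nontrivial hyperinvariant subspace -/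
def Conc (T : X →L[ℂ] X) : Prop := (∃ c : ℂ, T = c • (1 : X →L[ℂ] X)) ∨ HasHyp T

/-- an eigenvector -/
theorem conc_of_eig {T : X →L[ℂ] X} {c : ℂ} {x : X} (hx : x ≠ 0) (h : T x = c • x) : Conc T := by
  by_cases hs : ∃ c : ℂ, T = c • (1 : X →L[ℂ] X)
  · exact Or.inl hs
  right
  refine ⟨LinearMap.ker ((T - c • (1 : X →L[ℂ] X) : X →L[ℂ] X) : X →ₗ[ℂ] X),
    ContinuousLinearMap.isClosed_ker _, ?_, ?_, ?_⟩
  · intro hb
    have h1 : x ∈ LinearMap.ker ((T - c • (1 : X →L[ℂ] X) : X →L[ℂ] X) : X →ₗ[ℂ] X) := by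
      rw [LinearMap.mem_ker]
      simp [h]
    rw [hb, Submodule.mem_bot] at h1
    exact hx h1
  · intro ht
    apply hs
    refine ⟨c, ?_⟩
    ext y
    have h1 : y ∈ LinearMap.ker ((T - c • (1 : X →L[ℂ] X) : X →L[ℂ] X) : X →ₗ[ℂ] X) := by
      rw [ht]; trivial
    rw [LinearMap.mem_ker] at h1
    have h2 : T y - c • y = 0 := by simpa using h1
    simpa [sub_eq_zero] using h2
  · intro Q hQ y hy
    rw [LinearMap.mem_ker] at hy ⊢
    have h2 : T y - c • y = 0 := by simpa using hy
    have h3 : T (Q y) = Q (T y) := by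
      have := congrArg (fun A : X →L[ℂ] X => A y) hQ
      simpa using this.symm
    have h4 : T (Q y) - c • Q y = 0 := by
      rw [h3, ← map_smul, ← map_sub, h2, map_zero]
    simpa using h4

/-- an eigenvector of the adjoint -/
theorem conc_of_coeig {T : X →L[ℂ] X} {c : ℂ} {y : X →L[ℂ] ℂ} (hy : y ≠ 0)
    (h : ∀ x, y (T x) = c * y x) : Conc T := by
  by_cases hs : ∃ c : ℂ, T = c • (1 : X →L[ℂ] X)
  · exact Or.inl hs
  right
  set A : X →L[ℂ] X := T - c • (1 : X →L[ℂ] X) with hA
  refine ⟨(LinearMap.range (A : X →ₗ[ℂ] X)).topologicalClosure,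
    Submodule.isClosed_topologicalClosure _, ?_, ?_, ?_⟩
  · intro hb
    apply hs
    refine ⟨c, ?_⟩
    ext x
    have h1 : A x ∈ (LinearMap.range (A : X →ₗ[ℂ] X)).topologicalClosure :=
      Submodule.le_topologicalClosure _ (LinearMap.mem_range_self (A : X →ₗ[ℂ] X) x)
    rw [hb, Submodule.mem_bot] at h1
    have h2 : T x - c • x = 0 := by simpa [hA] using h1
    simpa [sub_eq_zero] using h2
  · intro ht
    apply hy
    have h1 : (LinearMap.range (A : X →ₗ[ℂ] X)).topologicalClosure ≤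
        LinearMap.ker (y : X →ₗ[ℂ] ℂ) := by
      refine Submodule.topologicalClosure_minimal _ ?_ (ContinuousLinearMap.isClosed_ker y)
      rintro _ ⟨x, rfl⟩
      rw [LinearMap.mem_ker]
      show y (A x) = 0
      simp [hA, h]
    ext x
    have h2 : x ∈ (LinearMap.range (A : X →ₗ[ℂ] X)).topologicalClosure := by
      rw [ht]; trivial
    exact h1 h2
  · intro Q hQ x hx
    have h1 : ∀ z, Q (A z) = A (Q z) := by
      intro z
      have := congrArg (fun B : X →L[ℂ] X => B z) hQ
      have h2 : Q (T z) = T (Q z) := by simpa using this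
      simp [hA, h2]
    have h2 : (LinearMap.range (A : X →ₗ[ℂ] X)).topologicalClosure ≤
        ((LinearMap.range (A : X →ₗ[ℂ] X)).topologicalClosure).comap (Q : X →ₗ[ℂ] X) := by
      refine Submodule.topologicalClosure_minimal _ ?_ ?_
      · rintro _ ⟨z, rfl⟩
        rw [Submodule.mem_comap]
        refine Submodule.le_topologicalClosure _ ?_
        refine ⟨Q z, ?_⟩
        exact (h1 z).symm
      · exact (Submodule.isClosed_topologicalClosure _).preimage Q.continuous
    exact h2 hx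

theorem uni (S : (X →L[ℂ] X)ˣ) (x : X) : (S : X →L[ℂ] X) ((↑S⁻¹ : X →L[ℂ] X) x) = x :=
  congrArg (fun A : X →L[ℂ] X => A x) S.mul_inv

theorem uni' (S : (X →L[ℂ] X)ˣ) (x : X) : (↑S⁻¹ : X →L[ℂ] X) ((S : X →L[ℂ] X) x) = x :=
  congrArg (fun A : X →L[ℂ] X => A x) S.inv_mul

/-- similarity -/
theorem conc_of_sim {T T' : X →L[ℂ] X} (S : (X →L[ℂ] X)ˣ) (h : (S : X →L[ℂ] X) * T = T' * S)
    (hT : Conc T') : Conc T := by
  have hT' : T = (↑S⁻¹ : X →L[ℂ] X) * T' * S := by
    rw [mul_assoc, ← h, ← mul_assoc, Units.inv_mul, one_mul]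
  rcases hT with ⟨c, hc⟩ | ⟨V, h1, h2, h3, h4⟩
  · left
    refine ⟨c, ?_⟩
    rw [hT', hc]
    rw [mul_smul_comm, mul_one, smul_mul_assoc, Units.inv_mul]
  · right
    refine ⟨V.comap ((S : X →L[ℂ] X) : X →ₗ[ℂ] X), h1.preimage (S : X →L[ℂ] X).continuous,
      ?_, ?_, ?_⟩
    · intro hb
      apply h2
      rw [eq_bot_iff]
      intro x hx
      have h5 : (↑S⁻¹ : X →L[ℂ] X) x ∈ V.comap ((S : X →L[ℂ] X) : X →ₗ[ℂ] X) := by
        rw [Submodule.mem_comap]
        show (S : X →L[ℂ] X) ((↑S⁻¹ : X →L[ℂ] X) x) ∈ V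
        rw [uni]
        exact hx
      rw [hb, Submodule.mem_bot] at h5
      have h6 := uni S x
      rw [h5, map_zero] at h6
      rw [Submodule.mem_bot]
      exact h6.symm
    · intro ht
      apply h3
      rw [eq_top_iff]
      intro x _
      have h5 : (↑S⁻¹ : X →L[ℂ] X) x ∈ V.comap ((S : X →L[ℂ] X) : X →ₗ[ℂ] X) := by
        rw [ht]; trivial
      rw [Submodule.mem_comap] at h5
      have h6 := uni S x
      have h7 : (S : X →L[ℂ] X) ((↑S⁻¹ : X →L[ℂ] X) x) ∈ V := h5
      rwa [h6] at h7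
    · intro Q hQ x hx
      rw [Submodule.mem_comap] at hx ⊢
      have h5 : ((S : X →L[ℂ] X) * Q * (↑S⁻¹ : X →L[ℂ] X)) * T' =
          T' * ((S : X →L[ℂ] X) * Q * (↑S⁻¹ : X →L[ℂ] X)) := by
        have e1 : T' = (S : X →L[ℂ] X) * T * (↑S⁻¹ : X →L[ℂ] X) := by
          rw [h, mul_assoc, Units.mul_inv, mul_one]
        rw [e1]
        calc (S : X →L[ℂ] X) * Q * (↑S⁻¹ : X →L[ℂ] X) * ((S : X →L[ℂ] X) * T * (↑S⁻¹ : X →L[ℂ] X))
            = (S : X →L[ℂ] X) * Q * ((↑S⁻¹ : X →L[ℂ] X) * (S : X →L[ℂ] X)) * T *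
              (↑S⁻¹ : X →L[ℂ] X) := by simp only [mul_assoc]
          _ = (S : X →L[ℂ] X) * (Q * T) * (↑S⁻¹ : X →L[ℂ] X) := by
              rw [Units.inv_mul, mul_one, mul_assoc (S : X →L[ℂ] X) Q T]
          _ = (S : X →L[ℂ] X) * (T * Q) * (↑S⁻¹ : X →L[ℂ] X) := by rw [hQ]
          _ = (S : X →L[ℂ] X) * T * ((↑S⁻¹ : X →L[ℂ] X) * (S : X →L[ℂ] X)) * Q *
              (↑S⁻¹ : X →L[ℂ] X) := by
              rw [Units.inv_mul, mul_one, mul_assoc (S : X →L[ℂ] X) T Q]
          _ = _ := by simp only [mul_assoc]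
      have h6 := h4 _ h5 _ hx
      have h7 : ((S : X →L[ℂ] X) * Q * (↑S⁻¹ : X →L[ℂ] X)) ((S : X →L[ℂ] X) x) =
          (S : X →L[ℂ] X) (Q x) := by
        show (S : X →L[ℂ] X) (Q ((↑S⁻¹ : X →L[ℂ] X) ((S : X →L[ℂ] X) x))) = _
        rw [uni']
      show (S : X →L[ℂ] X) (Q x) ∈ V
      rw [← h7]
      exact h6

/-- the kernel of `1 + K` is finite dimensional -/
theorem fd_ker {E : Type} [NormedAddCommGroup E] [NormedSpace ℂ E] {K : E →L[ℂ] E}
    (hK : IsCompactOperator (⇑K)) :
    FiniteDimensional ℂ (LinearMap.ker ((1 + K : E →L[ℂ] E) : E →ₗ[ℂ] E)) := by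
  set V := LinearMap.ker ((1 + K : E →L[ℂ] E) : E →ₗ[ℂ] E) with hV
  have hVc : IsClosed (V : Set E) := ContinuousLinearMap.isClosed_ker _
  have hmem : ∀ x : V, (K : E →ₗ[ℂ] E) x = -(x : E) := by
    intro x
    have h1 : (x : E) + K x = 0 := LinearMap.mem_ker.1 x.2
    show K x = -(x : E)
    exact eq_neg_of_add_eq_zero_right h1
  have hinv : ∀ x ∈ V, (K : E →ₗ[ℂ] E) x ∈ V := by
    intro x hx
    rw [hmem ⟨x, hx⟩]
    exact V.neg_mem hx
  have h1 : IsCompactOperator ((K : E →ₗ[ℂ] E).restrict hinv) :=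
    IsCompactOperator.restrict (f := (K : E →ₗ[ℂ] E)) hK hinv hVc
  have h2 : IsCompactOperator (id : V → V) := by
    have h3 := h1.neg
    have h4 : -(⇑((K : E →ₗ[ℂ] E).restrict hinv)) = (id : V → V) := by
      funext x
      apply Subtype.ext
      show -((K : E →ₗ[ℂ] E) x) = (x : E)
      rw [hmem x, neg_neg]
    rwa [h4] at h3
  exact FiniteDimensional.of_isCompactOperator_id (𝕜 := ℂ) h2

/-- an eigenvector in a finite dimensional invariant subspace -/
theorem exists_eig {E : Type} [NormedAddCommGroup E] [NormedSpace ℂ E] (T : E →L[ℂ] E)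
    (V : Submodule ℂ E) (hfd : FiniteDimensional ℂ V) (hV : V ≠ ⊥) (hT : ∀ x ∈ V, T x ∈ V) :
    ∃ (c : ℂ) (x : E), x ∈ V ∧ x ≠ 0 ∧ T x = c • x := by
  have : Nontrivial V := Submodule.nontrivial_iff_ne_bot.2 hV
  let f : Module.End ℂ V := (T : E →ₗ[ℂ] E).restrict hT
  obtain ⟨c, hc⟩ := Module.End.exists_eigenvalue f
  obtain ⟨x, hx⟩ := hc.exists_hasEigenvector
  refine ⟨c, x, x.2, fun h => hx.2 (Subtype.ext h), ?_⟩
  have h1 := hx.apply_eq_smul
  exact congrArg Subtype.val h1

/-- **The reduction.** -/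
theorem conc_of_int [CompleteSpace X] {N T K : X →L[ℂ] X} {u : X} {v : X →L[ℂ] ℂ}
    (hN : ∀ (u : X) (v : X →L[ℂ] ℂ), Conc (T1 N u v))
    (hK : IsCompactOperator (⇑K)) (hK' : IsCompactOperator (⇑(tr K)))
    (hS : (1 + K) * T = N * (1 + K) + v.smulRight u)
    (hy : ∀ (y : X →L[ℂ] ℂ) (c : ℂ), (∀ x, y (N x) = c * y x) → y u = 0 →
      ∀ x, y (T x) = y (N x)) : Conc T := by
  have hneg : (-1 : ℂ) ≠ 0 := neg_ne_zero.2 one_ne_zero
  rcases hK.hasEigenvalue_or_mem_resolventSet hneg with he | hr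
  · -- `1 + K` is not injective
    set V := LinearMap.ker ((1 + K : X →L[ℂ] X) : X →ₗ[ℂ] X) with hV
    have hVfd := fd_ker hK
    have hSx : ∀ x, T x + K (T x) = N x + N (K x) + v x • u := by
      intro x
      have := congrArg (fun A : X →L[ℂ] X => A x) hS
      simpa [add_mul, mul_add] using this
    have hVmem : ∀ x, x ∈ V ↔ x + K x = 0 := by
      intro x
      rw [hV, LinearMap.mem_ker]
      simp
    obtain ⟨x₁, hx₁⟩ := he.exists_hasEigenvector
    have hx₁V : x₁ ∈ V := by
      rw [hVmem]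
      have h1 : K x₁ = (-1 : ℂ) • x₁ := hx₁.apply_eq_smul
      rw [h1]
      simp
    have hVne : V ≠ ⊥ := by
      intro h
      rw [h, Submodule.mem_bot] at hx₁V
      exact hx₁.2 hx₁V
    by_cases hv : ∀ x ∈ V, v x = 0
    · -- the kernel is invariant
      obtain ⟨c, x, -, hx0, hx⟩ := exists_eig T V hVfd hVne (fun x hx => by
        rw [hVmem] at hx ⊢
        rw [hSx, ← map_add, hx, map_zero, hv x ((hVmem x).2 hx), zero_smul, zero_add])
      exact conc_of_eig hx0 hx
    · push Not at hv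
      obtain ⟨x₀, hx₀, hvx⟩ := hv
      -- `u` is in the range
      obtain ⟨w, hw⟩ : ∃ w, w + K w = u := by
        refine ⟨(v x₀)⁻¹ • T x₀, ?_⟩
        have h1 := hSx x₀
        rw [← map_add, (hVmem x₀).1 hx₀, map_zero, zero_add] at h1
        rw [map_smul, ← smul_add, h1, smul_smul, inv_mul_cancel₀ hvx, one_smul]
      -- the kernel of the adjoint
      set W := LinearMap.ker ((1 + tr K : StrongDual ℂ X →L[ℂ] StrongDual ℂ X) :
        StrongDual ℂ X →ₗ[ℂ] StrongDual ℂ X) with hW
      have hWfd := fd_ker hK'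
      have hWmem : ∀ y : StrongDual ℂ X, y ∈ W ↔ ∀ x, y (x + K x) = 0 := by
        intro y
        rw [hW, LinearMap.mem_ker]
        constructor
        · intro h x
          have := congrArg (fun g : StrongDual ℂ X => g x) h
          simpa [tr_apply] using this
        · intro h
          ext x
          have := h x
          simpa [tr_apply] using this
      have hWne : W ≠ ⊥ := by
        rcases hK'.hasEigenvalue_or_mem_resolventSet hneg with he' | hr'
        · obtain ⟨y, hy1⟩ := he'.exists_hasEigenvector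
          intro h
          have h1 : y ∈ W := by
            rw [hWmem]
            intro x
            have h2 : tr K y = (-1 : ℂ) • y := hy1.apply_eq_smul
            have h3 := congrArg (fun g : StrongDual ℂ X => g x) h2
            have h4 : y (K x) = -y x := by simpa [tr_apply] using h3
            rw [map_add, h4, add_neg_cancel]
          rw [h, Submodule.mem_bot] at h1
          exact hy1.2 h1
        · exfalso
          rw [spectrum.mem_resolventSet_iff, ContinuousLinearMap.isUnit_iff_bijective] at hr'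
          apply hx₁.2
          refine SeparatingDual.eq_zero_of_forall_dual_eq_zero (R := ℂ) fun f => ?_
          obtain ⟨g, hg⟩ := hr'.2 f
          have h1 := congrArg (fun h : StrongDual ℂ X => h x₁) hg
          have h2 : -g x₁ - g (K x₁) = f x₁ := by
            simpa [Algebra.algebraMap_eq_smul_one, tr_apply] using h1
          rw [← h2]
          have h3 := (hVmem x₁).1 hx₁V
          have h4 : g x₁ + g (K x₁) = 0 := by rw [← map_add, h3, map_zero]
          linear_combination -h4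
      obtain ⟨c, y, hyW, hy0, hyc⟩ := exists_eig (tr N) W hWfd hWne (fun y hy => by
        rw [hWmem] at hy ⊢
        intro x
        rw [tr_apply, map_add]
        have h1 := hSx x
        have h2 : N x + N (K x) = T x + K (T x) - v x • u := by rw [h1]; abel
        rw [h2, map_sub, map_smul, ← hw, hy, hy, smul_zero, sub_zero])
      have hyN : ∀ x, y (N x) = c * y x := by
        intro x
        have := congrArg (fun g : StrongDual ℂ X => g x) hyc
        simpa [tr_apply] using this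
      have hyu : y u = 0 := by
        rw [← hw]
        exact (hWmem y).1 hyW w
      exact conc_of_coeig (c := c) hy0 fun x => by
        rw [hy y c hyN hyu, hyN]
  · -- `1 + K` is invertible
    have hu : IsUnit (1 + K) := by
      rw [spectrum.mem_resolventSet_iff, ← IsUnit.neg_iff] at hr
      have e : 1 + K = -(algebraMap ℂ (X →L[ℂ] X) (-1) - K) := by
        rw [Algebra.algebraMap_eq_smul_one, neg_smul, one_smul]
        abel
      rw [e]
      exact hr
    obtain ⟨S, hSu⟩ := hu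
    refine conc_of_sim (T' := T1 N u (v.comp (↑S⁻¹ : X →L[ℂ] X))) S ?_ (hN _ _)
    rw [hSu, hS]
    unfold T1
    rw [add_mul, ← hSu]
    congr 1
    ext x
    show v x • u = v ((↑S⁻¹ : X →L[ℂ] X) ((S : X →L[ℂ] X) x)) • u
    rw [uni']

end Pool.Agent.Q88.RF
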