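import Pool.Agent.Q98.RB.Main
import Pool.Agent.Q88.RF.Core

/-!
# Finitely many essential points
-/

set_option autoImplicit false

namespace Pool.Agent.Q88.RF

open Pool.Agent.Q98.RB
open Module Filter Topology Set Metric

variable {X : Type} [NormedAddCommGroup X] [NormedSpace ℂ X]
variable {N : X →L[ℂ] X} {R : ℝ} {Ψ : C(DD R, ℂ) →ₐ[ℂ] (X →L[ℂ] X)}

theorem op_poly (hΨ : Cal N R Ψ) (p : Polynomial ℂ) :
    op Ψ (fun z => p.eval z) = Polynomial.aeval N p := by
  induction p using Polynomial.induction_on with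
  | C a =>
    simp only [Polynomial.eval_C, Polynomial.aeval_C]
    rw [op_const, Algebra.algebraMap_eq_smul_one]
  | add p q hp hq =>
    simp only [Polynomial.eval_add, map_add]
    rw [op_add (by fun_prop) (by fun_prop), hp, hq]
  | monomial n a h =>
    have e1 : (fun z : ℂ => (Polynomial.C a * Polynomial.X ^ (n + 1)).eval z) =
        fun z => (Polynomial.C a * Polynomial.X ^ n).eval z * z := by
      funext z
      simp
      ring
    rw [e1, op_mul (by fun_prop) continuous_id', h, op_id hΨ]
    have e2 : Polynomial.C a * Polynomial.X ^ (n + 1) =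
        (Polynomial.C a * Polynomial.X ^ n) * Polynomial.X := by ring
    rw [e2, map_mul _ (Polynomial.C a * Polynomial.X ^ n), Polynomial.aeval_X]

theorem compact_of_fin [CompleteSpace X] (hΨ : Cal N R Ψ) (F : Finset ℂ)
    (h : ∀ a, a ∉ F → ¬ Ess Ψ a) :
    IsCompactOperator (⇑(Polynomial.aeval N (∏ a ∈ F, (Polynomial.X - Polynomial.C a)))) := by
  classical
  obtain ⟨C₀, hC₀, hop⟩ := op_bound hΨ
  set P : Polynomial ℂ := ∏ a ∈ F, (Polynomial.X - Polynomial.C a) with hP
  set p : ℂ → ℂ := fun z => P.eval z with hp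
  have hpc : Continuous p := by fun_prop
  have hp0 : ∀ b ∈ F, p b = 0 := by
    intro b hb
    simp only [hp, hP, Polynomial.eval_prod]
    exact Finset.prod_eq_zero hb (by simp)
  -- a compact operator for each `η`
  have key : ∀ η : ℝ, 0 < η → ∃ K : X →L[ℂ] X, IsCompactOperator (⇑K) ∧
      ‖Polynomial.aeval N P - K‖ ≤ C₀ * η := by
    intro η hη
    have h0 : ∀ b : ℂ, ∃ ε : ℝ, 0 < ε ∧ (b ∈ F → ∀ z, ‖z - b‖ < 2 * ε → ‖p z‖ ≤ η) := by
      intro b
      by_cases hb : b ∈ F
      · obtain ⟨δ, hδ, h1⟩ := Metric.continuousAt_iff.1 (hpc.continuousAt (x := b)) η hη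
        refine ⟨δ / 2, by positivity, fun _ z hz => ?_⟩
        have h2 := h1 (x := z) (by rw [dist_eq_norm]; linarith)
        rw [hp0 b hb, dist_zero_right] at h2
        exact h2.le
      · exact ⟨1, one_pos, fun h => absurd h hb⟩
    choose ε hε0 hε using h0
    have h1 : ∀ a : ℂ, ∃ t : ℝ, 0 < t ∧ (a ∉ F → FR (op Ψ (cf a t))) := by
      intro a
      by_cases ha : a ∈ F
      · exact ⟨1, one_pos, fun h => absurd ha h⟩
      · have h2 := h a ha
        unfold Ess at h2
        push Not at h2
        obtain ⟨t, ht, h3⟩ := h2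
        exact ⟨t, ht, fun _ => h3⟩
    choose t ht0 ht using h1
    have hKc : IsCompact (closedBall (0:ℂ) R \ ⋃ b ∈ F, ball b (ε b)) :=
      (isCompact_closedBall (0:ℂ) R).diff (isOpen_biUnion fun _ _ => isOpen_ball)
    obtain ⟨G, hGs, hG⟩ := hKc.elim_nhds_subcover (fun a => ball a (t a))
      (fun a _ => ball_mem_nhds a (ht0 a))
    have hGne : ∀ a ∈ G, a ∉ F := by
      intro a ha h0
      have := (hGs a ha).2
      exact this (mem_biUnion h0 (mem_ball_self (hε0 a)))
    set g : ℂ → ℝ := fun z => ∑ b ∈ G, cfr b (t b) z with hg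
    have hgc : Continuous g := continuous_finsetSum _ fun b _ => cfr_cont b (t b)
    set χ : ℂ → ℝ := fun z => ∏ b ∈ F, (1 - cfr b (ε b) z) with hχ
    have hχc : Continuous χ := continuous_finsetProd _ fun b _ =>
      continuous_const.sub (cfr_cont b (ε b))
    have hχ0 : ∀ z, 0 ≤ χ z := fun z => Finset.prod_nonneg fun b _ => by
      have := cfr_le b (ε b) z; linarith
    have hχ1 : ∀ z, χ z ≤ 1 := fun z => Finset.prod_le_one (fun b _ => by
      have := cfr_le b (ε b) z; linarith) fun b _ => by
      have := cfr_nonneg b (ε b) z; linarith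
    have hg1 : ∀ z, ‖z‖ ≤ R → (∀ b ∈ F, z ∉ ball b (ε b)) → 1 ≤ g z := by
      intro z hz hz'
      obtain ⟨b, hb, hzb⟩ := mem_iUnion₂.1 (hG ⟨mem_closedBall_zero_iff.2 hz, by
        rw [mem_iUnion₂]
        rintro ⟨b, hb, hzb⟩
        exact hz' b hb hzb⟩)
      rw [mem_ball, dist_eq_norm] at hzb
      calc (1:ℝ) = cfr b (t b) z := (cfr_one (ht0 b) hzb.le).symm
        _ ≤ g z := Finset.single_le_sum (f := fun b => cfr b (t b) z)
            (fun b _ => cfr_nonneg _ _ _) hb
    have hm : ∀ z, ((max (g z) 1 : ℝ) : ℂ) ≠ 0 := fun z => by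
      have : (0:ℝ) < max (g z) 1 := lt_max_of_lt_right one_pos
      exact_mod_cast this.ne'
    have hχc' : Continuous fun z => (χ z : ℂ) := Complex.continuous_ofReal.comp hχc
    set k : ℂ → ℂ := fun z => p z * (χ z : ℂ) / ((max (g z) 1 : ℝ) : ℂ) with hk
    have hkc : Continuous k := by
      refine Continuous.div (hpc.mul hχc') ?_ hm
      exact Complex.continuous_ofReal.comp (hgc.max continuous_const)
    have hcfc : ∀ b, Continuous (cf b (t b)) := fun b => cf_cont _ _
    -- the operator
    set K : X →L[ℂ] X := ∑ b ∈ G, op Ψ k * op Ψ (cf b (t b)) with hK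
    have hKcomp : IsCompactOperator (⇑K) := by
      have h2 : K ∈ (compactOperator (RingHom.id ℂ) X X : Submodule ℂ (X →L[ℂ] X)) := by
        rw [hK]
        refine Submodule.sum_mem _ fun b hb => ?_
        show IsCompactOperator (⇑(op Ψ k * op Ψ (cf b (t b))))
        exact (ht b (hGne b hb)).compact.clm_comp (op Ψ k)
      exact h2
    have hsum : K = op Ψ (fun z => k z * (g z : ℂ)) := by
      have h3 : ∀ F : Finset ℂ, ∑ b ∈ F, op Ψ k * op Ψ (cf b (t b)) =
          op Ψ (fun z => k z * ((∑ b ∈ F, cfr b (t b) z : ℝ) : ℂ)) := by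
        intro F
        induction F using Finset.induction_on with
        | empty =>
          simp only [Finset.sum_empty, Complex.ofReal_zero, mul_zero]
          rw [op_zero]
        | insert b F hb ih =>
          rw [Finset.sum_insert hb, ih, ← op_mul hkc (hcfc b),
            ← op_add (h := fun z => k z * cf b (t b) z) (hkc.mul (hcfc b))]
          · congr 1
            funext z
            rw [Finset.sum_insert hb]
            unfold cf
            push_cast
            ring
          · refine hkc.mul (Complex.continuous_ofReal.comp ?_)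
            exact continuous_finsetSum _ fun b _ => cfr_cont b (t b)
      rw [hK, h3 G]
    have hkg : K = op Ψ (fun z => p z * (χ z : ℂ)) := by
      rw [hsum]
      refine op_congr (hkc.mul (Complex.continuous_ofReal.comp hgc)) (hpc.mul hχc')
        fun z hz => ?_
      by_cases hb : ∃ b ∈ F, z ∈ ball b (ε b)
      · obtain ⟨b, hb, hzb⟩ := hb
        rw [mem_ball, dist_eq_norm] at hzb
        have h5 : χ z = 0 := Finset.prod_eq_zero hb (by rw [cfr_one (hε0 b) hzb.le, sub_self])
        simp only [hk, h5]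
        simp
      · push Not at hb
        have h4 := hg1 z hz hb
        have h5 : max (g z) 1 = g z := max_eq_left h4
        have h6 : (g z : ℂ) ≠ 0 := by
          have : g z ≠ 0 := by linarith
          exact_mod_cast this
        simp only [hk]
        rw [h5]
        field_simp
    refine ⟨K, hKcomp, ?_⟩
    have hpχ : Continuous fun z => p z * (χ z : ℂ) := hpc.mul hχc'
    have hPc : Continuous fun z => P.eval z := by fun_prop
    rw [← op_poly hΨ, hkg, ← op_sub hPc hpχ]
    refine hop _ _ (by fun_prop) (by positivity) fun z _ => ?_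
    have e : P.eval z - p z * (χ z : ℂ) = p z * ((1 - χ z : ℝ) : ℂ) := by
      simp only [hp]
      push_cast
      ring
    rw [e]
    by_cases hb : ∃ b ∈ F, ‖z - b‖ < 2 * ε b
    · obtain ⟨b, hb, hzb⟩ := hb
      rw [norm_mul, Complex.norm_real, Real.norm_eq_abs, abs_of_nonneg (by linarith [hχ1 z])]
      calc ‖p z‖ * (1 - χ z) ≤ η * 1 :=
            mul_le_mul (hε b hb z hzb) (by linarith [hχ0 z]) (by linarith [hχ1 z]) hη.le
        _ = η := mul_one _
    · push Not at hb
      have h5 : χ z = 1 := Finset.prod_eq_one fun b hb' => by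
        rw [cfr_zero (hε0 b) (hb b hb'), sub_zero]
      rw [h5, sub_self, Complex.ofReal_zero, mul_zero, norm_zero]
      exact hη.le
  choose K hK1 hK2 using fun n : ℕ => key (1 / (n + 1)) (by positivity)
  have hlim : Tendsto K atTop (𝓝 (Polynomial.aeval N P)) := by
    rw [tendsto_iff_norm_sub_tendsto_zero]
    have h1 : Tendsto (fun n : ℕ => C₀ * (1 / ((n:ℝ) + 1))) atTop (𝓝 0) := by
      have := (tendsto_one_div_add_atTop_nhds_zero_nat (𝕜 := ℝ)).const_mul C₀
      simpa using this
    refine squeeze_zero (fun _ => norm_nonneg _) (fun n => ?_) h1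
    rw [norm_sub_rev]
    exact hK2 n
  exact isCompactOperator_of_tendsto hlim (Eventually.of_forall hK1)

end Pool.Agent.Q88.RF
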