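import Pool.Agent.Q88.RF.Inj

/-!
# Restrictions to invariant subspaces of finite codimension
-/

set_option autoImplicit false

namespace Pool.Agent.Q88.RF

open Pool.Agent.Q98.RB
open Module Filter Topology Set Metric

variable {X Y : Type} [NormedAddCommGroup X] [NormedSpace ℂ X] [NormedAddCommGroup Y]
  [NormedSpace ℂ Y]

/-- the functionals which vanish on a subspace -/
def An (Y0 : Submodule ℂ Y) : Submodule ℂ (StrongDual ℂ Y) where
  carrier := {w | ∀ y ∈ Y0, w y = 0}
  add_mem' := by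
    intro w w' h h' y hy
    show w y + w' y = 0
    rw [h y hy, h' y hy, add_zero]
  zero_mem' := fun _ _ => rfl
  smul_mem' := by
    intro c w h y hy
    show c * w y = 0
    rw [h y hy, mul_zero]

theorem An_fd {Y0 : Submodule ℂ Y} (h : FiniteDimensional ℂ (Y ⧸ Y0)) :
    FiniteDimensional ℂ (An Y0) := by
  let L : An Y0 →ₗ[ℂ] Module.Dual ℂ (Y ⧸ Y0) :=
    { toFun := fun w => Y0.liftQ ((w : StrongDual ℂ Y) : Y →ₗ[ℂ] ℂ)
        (fun y hy => LinearMap.mem_ker.2 (w.2 y hy))
      map_add' := by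
        intro w w'
        ext y
        rfl
      map_smul' := by
        intro c w
        ext y
        rfl }
  have hD : FiniteDimensional ℂ (Module.Dual ℂ (Y ⧸ Y0)) := dual_fd _
  refine Module.Finite.of_injective L ?_
  intro w w' hw
  apply Subtype.ext
  ext y
  have := congrArg (fun l : Module.Dual ℂ (Y ⧸ Y0) => l (Y0.mkQ y)) hw
  exact this

theorem hyp_of_comm {T P : X →L[ℂ] X} (hP : ∀ Q : X →L[ℂ] X, Q * T = T * Q → Q * P = P * Q)
    (h : HasHyp P) : HasHyp T := by
  obtain ⟨V, h1, h2, h3, h4⟩ := h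
  exact ⟨V, h1, h2, h3, fun Q hQ x hx => h4 Q (hP Q hQ) x hx⟩

theorem comm_aeval {T Q : X →L[ℂ] X} (h : Q * T = T * Q) (p : Polynomial ℂ) :
    Q * Polynomial.aeval T p = Polynomial.aeval T p * Q := by
  induction p using Polynomial.induction_on with
  | C a =>
    rw [Polynomial.aeval_C]
    exact (Algebra.commutes a Q).symm
  | add p q hp hq => rw [map_add, mul_add, add_mul, hp, hq]
  | monomial n a ih =>
    have e2 : Polynomial.C a * Polynomial.X ^ (n + 1) =
        (Polynomial.C a * Polynomial.X ^ n) * Polynomial.X := by ring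
    rw [e2, map_mul, Polynomial.aeval_X, ← mul_assoc, ih, mul_assoc, h, mul_assoc]

/-- intertwining of polynomials -/
theorem int_aeval {T : X →L[ℂ] X} {A : Y →L[ℂ] Y} {S : X →L[ℂ] Y}
    (h : ∀ x, S (T x) = A (S x)) (p : Polynomial ℂ) (x : X) :
    S (Polynomial.aeval T p x) = Polynomial.aeval A p (S x) := by
  induction p using Polynomial.induction_on generalizing x with
  | C a => simp [Algebra.algebraMap_eq_smul_one]
  | add p q hp hq => simp [hp, hq]
  | monomial n a ih =>
    have e2 : Polynomial.C a * Polynomial.X ^ (n + 1) =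
        (Polynomial.C a * Polynomial.X ^ n) * Polynomial.X := by ring
    rw [e2, map_mul _ (Polynomial.C a * Polynomial.X ^ n),
      map_mul _ (Polynomial.C a * Polynomial.X ^ n), Polynomial.aeval_X, Polynomial.aeval_X]
    show S (Polynomial.aeval T _ (T x)) = Polynomial.aeval A _ (A (S x))
    rw [ih (T x), h]

/-- polynomials of a rank one perturbation -/
theorem aeval_compact {N : Y →L[ℂ] Y} (u : Y) (v : Y →L[ℂ] ℂ) (p : Polynomial ℂ) :
    IsCompactOperator (⇑(Polynomial.aeval (T1 N u v) p - Polynomial.aeval N p)) := by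
  have hz : IsCompactOperator (⇑(0 : Y →L[ℂ] Y)) :=
    (0 : (compactOperator (RingHom.id ℂ) Y Y : Submodule ℂ (Y →L[ℂ] Y))).2
  induction p using Polynomial.induction_on with
  | C a => simpa using hz
  | add p q hp hq =>
    have e : Polynomial.aeval (T1 N u v) (p + q) - Polynomial.aeval N (p + q) =
        (Polynomial.aeval (T1 N u v) p - Polynomial.aeval N p) +
        (Polynomial.aeval (T1 N u v) q - Polynomial.aeval N q) := by
      rw [map_add, map_add]; abel
    rw [e]
    exact hp.add hq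
  | monomial n a ih =>
    have e2 : Polynomial.C a * Polynomial.X ^ (n + 1) =
        (Polynomial.C a * Polynomial.X ^ n) * Polynomial.X := by ring
    rw [e2, map_mul _ (Polynomial.C a * Polynomial.X ^ n),
      map_mul _ (Polynomial.C a * Polynomial.X ^ n), Polynomial.aeval_X, Polynomial.aeval_X]
    set P := Polynomial.aeval (T1 N u v) (Polynomial.C a * Polynomial.X ^ n)
    set P' := Polynomial.aeval N (Polynomial.C a * Polynomial.X ^ n)
    have e : P * T1 N u v - P' * N = (P - P') * T1 N u v + P' * (v.smulRight u) := by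
      rw [sub_mul]
      unfold T1
      rw [mul_add P' N]
      abel
    rw [e]
    exact (ih.comp_clm (T1 N u v)).add ((rank_compact u v).clm_comp P')

/-- `T` is intertwined with a rank one perturbation by an injective operator with closed range of
finite codimension -/
theorem inj_case [CompleteSpace X] [CompleteSpace Y] (hY : Refl Y) {N : Y →L[ℂ] Y} {R : ℝ}
    {Ψ : C(DD R, ℂ) →ₐ[ℂ] (Y →L[ℂ] Y)} (hΨ : Cal N R Ψ) {T : X →L[ℂ] X} {S : X →L[ℂ] Y}
    (hinj : Function.Injective S) (hcl : IsClosed (LinearMap.range (S : X →ₗ[ℂ] Y) : Set Y))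
    (hco : FiniteDimensional ℂ (Y ⧸ LinearMap.range (S : X →ₗ[ℂ] Y))) {u : Y} {v : Y →L[ℂ] ℂ}
    (h : ∀ x, S (T x) = T1 N u v (S x)) : Conc T := by
  classical
  have hclr : IsClosed (Set.range S) := by
    have h1 : (LinearMap.range (S : X →ₗ[ℂ] Y) : Set Y) = Set.range S := by
      ext y; rfl
    rwa [h1] at hcl
  obtain ⟨κ, hκ⟩ := S.antilipschitz_of_injective_of_isClosed_range hinj hclr
  have hbd : ∀ x, ‖x‖ ≤ κ * ‖S x‖ := S.bound_of_antilipschitz hκ
  set Y0 := LinearMap.range (S : X →ₗ[ℂ] Y) with hY0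
  set A := T1 N u v with hA
  have hinv : ∀ y ∈ Y0, A y ∈ Y0 := by
    rintro _ ⟨x, rfl⟩
    exact ⟨T x, h x⟩
  let B : Module.End ℂ (Y ⧸ Y0) := Y0.mapQ Y0 (A : Y →ₗ[ℂ] Y) hinv
  have hBmk : ∀ y, B (Y0.mkQ y) = Y0.mkQ (A y) := fun y => Submodule.mapQ_apply _ _ _ _
  set Λ : Set ℂ := {c | B.HasEigenvalue c} with hΛ
  have hΛfin : Λ.Finite := B.finite_hasEigenvalue
  have claim0 : ∀ c, c ∉ Λ → ∀ g, A g = c • g → g ∈ Y0 := by
    intro c hc g hg
    by_contra hgY
    apply hc
    have h1 : Y0.mkQ g ≠ 0 := by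
      intro h0
      exact hgY ((Submodule.Quotient.mk_eq_zero Y0).1 h0)
    have h2 : B (Y0.mkQ g) = c • Y0.mkQ g := by rw [hBmk, hg, map_smul]
    exact Module.End.hasEigenvalue_of_hasEigenvector ⟨Module.End.mem_eigenspace_iff.2 h2, h1⟩
  have claim0' : ∀ c, c ∉ Λ → ∀ w : Y →L[ℂ] ℂ, (∀ y ∈ Y0, w y = 0) →
      (∀ y, w (A y) = c * w y) → w = 0 := by
    intro c hc w hw hwA
    have h1 : Function.Injective (B - c • (1 : Module.End ℂ (Y ⧸ Y0))) := by
      rw [injective_iff_map_eq_zero]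
      intro z hz
      by_contra hz0
      apply hc
      refine Module.End.hasEigenvalue_of_hasEigenvector
        ⟨Module.End.mem_eigenspace_iff.2 (?_ : B z = c • z), hz0⟩
      have h3 : B z - c • z = 0 := by simpa using hz
      exact sub_eq_zero.1 h3
    have h2 := LinearMap.injective_iff_surjective.1 h1
    ext y
    obtain ⟨z', hz'⟩ := h2 (Y0.mkQ y)
    obtain ⟨z, rfl⟩ := Y0.mkQ_surjective z'
    have h3 : Y0.mkQ (A z - c • z - y) = 0 := by
      have h4 : B (Y0.mkQ z) - c • Y0.mkQ z = Y0.mkQ y := by simpa using hz'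
      rw [map_sub, map_sub, map_smul, ← hBmk, h4, sub_self]
    have h5 := hw _ ((Submodule.Quotient.mk_eq_zero Y0).1 h3)
    rw [map_sub, map_sub, map_smul, hwA, smul_eq_mul, sub_self, zero_sub, neg_eq_zero] at h5
    exact h5
  have hpow : ∀ (a : ℂ) (k : ℕ) (x : X), S (((T - a • (1 : X →L[ℂ] X)) ^ k) x) =
      ((A - a • (1 : Y →L[ℂ] Y)) ^ k) (S x) := by
    intro a k
    induction k with
    | zero => intro x; simp
    | succ k ih =>
      intro x
      rw [pow_succ, pow_succ]
      show S (((T - a • (1 : X →L[ℂ] X)) ^ k) (T x - a • x)) =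
        ((A - a • (1 : Y →L[ℂ] Y)) ^ k) (A (S x) - a • S x)
      rw [ih, map_sub, map_smul, h]
  have claim1 : ∀ (a : ℂ) (r : ℝ), 0 < r → Ess Ψ a → (∀ c ∈ Λ, r < ‖c - a‖) → HasCh T a r := by
    intro a r hr hE hr'
    obtain ⟨y, hy0, hy⟩ := chain_iff.1 (chain hY hΨ u v a hr hE)
    rw [← hA] at hy
    by_cases hG : ∃ y', y' ≠ 0 ∧ y' ∈ Y0 ∧ y' ∈ Gr (A - a • (1 : Y →L[ℂ] Y)) r
    · obtain ⟨_, hy1, ⟨x, rfl⟩, C, hC⟩ := hG
      refine chain_iff.2 ⟨x, fun h0 => hy1 (by rw [h0, map_zero]), κ * C, fun k => ?_⟩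
      refine (hbd _).trans ?_
      rw [hpow, mul_assoc]
      exact mul_le_mul_of_nonneg_left (hC k) κ.2
    · exfalso
      push Not at hG
      have hfd : FiniteDimensional ℂ (Gr (A - a • (1 : Y →L[ℂ] Y)) r) := by
        refine Module.Finite.of_injective (Y0.mkQ.comp (Submodule.subtype _)) ?_
        rw [injective_iff_map_eq_zero]
        intro z hz
        apply Subtype.ext
        by_contra hz0
        exact hG z hz0 ((Submodule.Quotient.mk_eq_zero Y0).1 hz) z.2
      obtain ⟨c, g, hg, hg0, hAg, hcr⟩ := eig_of_grow hr _ hfd (fun x hx => Gr_inv rfl hx) hy hy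
        hy0
      have h1 : A g = (a + c) • g := by
        have h2 : A g - a • g = c • g := hAg
        rw [add_smul, ← h2]
        abel
      have h2 : a + c ∉ Λ := by
        intro h3
        have := hr' _ h3
        rw [add_sub_cancel_left] at this
        linarith
      exact hG g hg0 (claim0 _ h2 g h1) hg
  have hpow' : ∀ (b : ℂ) (k : ℕ) (w : StrongDual ℂ Y),
      ((tr T - b • (1 : StrongDual ℂ X →L[ℂ] StrongDual ℂ X)) ^ k) (w.comp S) =
      (((tr A - b • (1 : StrongDual ℂ Y →L[ℂ] StrongDual ℂ Y)) ^ k) w).comp S := by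
    intro b k
    induction k with
    | zero => intro w; simp
    | succ k ih =>
      intro w
      rw [pow_succ, pow_succ]
      have e : (tr T - b • (1 : StrongDual ℂ X →L[ℂ] StrongDual ℂ X)) (w.comp S) =
          ((tr A - b • (1 : StrongDual ℂ Y →L[ℂ] StrongDual ℂ Y)) w).comp S := by
        ext x
        show w (S (T x)) - b * w (S x) = w (A (S x)) - b * w (S x)
        rw [h]
      show ((tr T - b • (1 : StrongDual ℂ X →L[ℂ] StrongDual ℂ X)) ^ k)
        ((tr T - b • (1 : StrongDual ℂ X →L[ℂ] StrongDual ℂ X)) (w.comp S)) = _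
      rw [e, ih]
      rfl
  have claim2 : ∀ (b : ℂ) (r : ℝ), 0 < r → Ess Ψ b → (∀ c ∈ Λ, r < ‖c - b‖) →
      HasCh (tr T) b r := by
    intro b r hr hE hr'
    have h1 := chain hY.dual hΨ.tr v (NormedSpace.inclusionInDoubleDual ℂ Y u) b hr hE.tr
    rw [← tr_T1] at h1
    obtain ⟨w, hw0, hw⟩ := chain_iff.1 h1
    rw [← hA] at hw
    by_cases hz : w.comp S = 0
    · exfalso
      have hwZ : w ∈ An Y0 := by
        rintro _ ⟨x, rfl⟩
        exact congrArg (fun f : X →L[ℂ] ℂ => f x) hz
      obtain ⟨c, g, hg, hg0, hAg, hcr⟩ := eig_of_grow hr (An Y0) (An_fd hco) (fun f hf y hy => by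
        show f (A y) - b * f y = 0
        rw [hf _ (hinv y hy), hf y hy, mul_zero, sub_zero]) hwZ hw hw0
      refine hg0 (claim0' (b + c) ?_ g hg fun y => ?_)
      · intro h3
        have := hr' _ h3
        rw [add_sub_cancel_left] at this
        linarith
      · have h2 := congrArg (fun f : StrongDual ℂ Y => f y) hAg
        have h3 : g (A y) - b * g y = c * g y := h2
        linear_combination h3
    · obtain ⟨C, hC⟩ := hw
      refine chain_iff.2 ⟨w.comp S, hz, ‖S‖ * C, fun k => ?_⟩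
      rw [hpow']
      refine (ContinuousLinearMap.opNorm_comp_le _ _).trans ?_
      rw [mul_comm, mul_assoc]
      exact mul_le_mul_of_nonneg_left (hC k) (norm_nonneg S)
  by_cases hab : ∃ a b : ℂ, a ≠ b ∧ Ess Ψ a ∧ Ess Ψ b ∧ a ∉ Λ ∧ b ∉ Λ
  · right
    obtain ⟨a, b, hab, ha, hb, haΛ, hbΛ⟩ := hab
    have hdist : 0 < ‖a - b‖ := norm_pos_iff.2 (sub_ne_zero.2 hab)
    have hop : ∀ a, a ∉ Λ → ∃ ε : ℝ, 0 < ε ∧ ∀ c ∈ Λ, ε ≤ ‖c - a‖ := by
      intro a ha
      obtain ⟨ε, hε, hb⟩ := Metric.isOpen_iff.1 hΛfin.isClosed.isOpen_compl a ha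
      refine ⟨ε, hε, fun c hc => ?_⟩
      by_contra hcon
      push Not at hcon
      exact hb (by rw [mem_ball, dist_eq_norm]; exact hcon) hc
    obtain ⟨ε, hε, hε'⟩ := hop a haΛ
    obtain ⟨δ, hδ, hδ'⟩ := hop b hbΛ
    obtain ⟨x, ⟨X1, C₁, X2⟩, X3⟩ := claim1 a (min (‖a - b‖ / 3) (ε / 2)) (by positivity) ha
      (fun c hc => lt_of_lt_of_le (lt_of_le_of_lt (min_le_right _ _) (by linarith)) (hε' c hc))
    obtain ⟨Z, ⟨Y1, C₂, Y2⟩, Y3⟩ := claim2 b (min (‖a - b‖ / 3) (δ / 2)) (by positivity) hb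
      (fun c hc => lt_of_lt_of_le (lt_of_le_of_lt (min_le_right _ _) (by linarith)) (hδ' c hc))
    refine ann T a b _ _ C₁ C₂ x Z (by positivity) (by positivity) ?_ X1 X2 Y1 Y2 X3 Y3
    have e1 := min_le_left (‖a - b‖ / 3) (ε / 2)
    have e2 := min_le_left (‖a - b‖ / 3) (δ / 2)
    linarith
  · obtain ⟨F, hFne, hF⟩ : ∃ F : Finset ℂ, F.Nonempty ∧ ∀ a, a ∉ F → ¬ Ess Ψ a := by
      by_cases h2 : ∃ a, Ess Ψ a ∧ a ∉ Λ
      · obtain ⟨a, ha, haΛ⟩ := h2
        refine ⟨insert a hΛfin.toFinset, Finset.insert_nonempty _ _, fun b hb hE => hab ?_⟩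
        rw [Finset.mem_insert, not_or, Set.Finite.mem_toFinset] at hb
        exact ⟨a, b, fun h => hb.1 h.symm, ha, hE, haΛ, hb.2⟩
      · push Not at h2
        refine ⟨insert 0 hΛfin.toFinset, Finset.insert_nonempty _ _, fun b hb hE => ?_⟩
        rw [Finset.mem_insert, not_or, Set.Finite.mem_toFinset] at hb
        exact hb.2 (h2 b hE)
    set P : Polynomial ℂ := ∏ a ∈ F, (Polynomial.X - Polynomial.C a) with hP
    have hcN : IsCompactOperator (⇑(Polynomial.aeval N P)) := compact_of_fin hΨ F hF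
    have hcA : IsCompactOperator (⇑(Polynomial.aeval A P)) := by
      have e : Polynomial.aeval A P = (Polynomial.aeval A P - Polynomial.aeval N P) +
          Polynomial.aeval N P := by abel
      rw [e]
      exact (aeval_compact u v P).add hcN
    have hcT : IsCompactOperator (⇑(Polynomial.aeval T P)) := by
      let D := S.equivRange hinj hclr
      have h1 : IsCompactOperator (⇑(S.comp (Polynomial.aeval T P))) := by
        have e : S.comp (Polynomial.aeval T P) = (Polynomial.aeval A P).comp S := by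
          ext x
          exact int_aeval h P x
        rw [e]
        exact hcA.comp_clm S
      have h2 := IsCompactOperator.codRestrict h1 (V := (S : X →ₗ[ℂ] Y).range)
        (fun x => ⟨_, rfl⟩) hcl
      have h3 := h2.clm_comp (D.symm : (S : X →ₗ[ℂ] Y).range →L[ℂ] X)
      have h4 : (⇑(Polynomial.aeval T P) : X → X) =
          ⇑(D.symm : (S : X →ₗ[ℂ] Y).range →L[ℂ] X) ∘
            Set.codRestrict (⇑(S.comp (Polynomial.aeval T P))) ((S : X →ₗ[ℂ] Y).range : Set Y)
              (fun x => ⟨_, rfl⟩) := by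
        funext x
        exact (S.equivRange_symm_apply hinj hclr (Polynomial.aeval T P x)).symm
      rw [h4]
      exact h3
    have hdeg : 0 < P.natDegree := by
      rw [hP, Polynomial.natDegree_prod_of_monic _ _ fun a _ => Polynomial.monic_X_sub_C a]
      simp only [Polynomial.natDegree_X_sub_C, Finset.sum_const, smul_eq_mul, mul_one]
      exact Finset.card_pos.2 hFne
    by_cases hsc : ∃ c : ℂ, Polynomial.aeval T P = c • (1 : X →L[ℂ] X)
    · obtain ⟨c, hc⟩ := hsc
      by_cases hx : ∃ x : X, x ≠ 0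
      · obtain ⟨x, hx⟩ := hx
        have h1 : P - Polynomial.C c ≠ 0 := by
          intro h0
          rw [sub_eq_zero] at h0
          rw [h0, Polynomial.natDegree_C] at hdeg
          exact lt_irrefl _ hdeg
        obtain ⟨d, g, hg, hTg⟩ := eig_of_alg h1 (by
          rw [map_sub, Polynomial.aeval_C, hc, Algebra.algebraMap_eq_smul_one, sub_self]) hx
        exact conc_of_eig hg hTg
      · left
        push Not at hx
        refine ⟨0, ?_⟩
        ext x
        rw [hx x, map_zero, map_zero]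
    · right
      exact hyp_of_comm (fun Q hQ => comm_aeval hQ P)
        (Pool.Agent.W577.HI.G1.main _ _ hcT hsc)

end Pool.Agent.Q88.RF
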