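import Pool.Agent.Q88.RF.FinCod

/-!
# Fredholm intertwining with a rank one defect
-/

set_option autoImplicit false

namespace Pool.Agent.Q88.RF

open Pool.Agent.Q98.RB
open Module Filter Topology Set Metric
open scoped LinearMap.FiniteRangeSetoid

/-- `N` has a continuous functional calculus on a disc -/
def HC {Y : Type} [NormedAddCommGroup Y] [NormedSpace ℂ Y] (N : Y →L[ℂ] Y) : Prop :=
  ∃ (R : ℝ) (Ψ : C(DD R, ℂ) →ₐ[ℂ] (Y →L[ℂ] Y)), Cal N R Ψ

section prod

variable {Y : Type} [NormedAddCommGroup Y] [NormedSpace ℂ Y]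

theorem Refl.prodC (hY : Refl Y) : Refl (Y × ℂ) := by
  intro F
  obtain ⟨y, hy⟩ := hY (F.comp ((ContinuousLinearMap.compL ℂ (Y × ℂ) Y ℂ).flip
    (ContinuousLinearMap.fst ℂ Y ℂ)))
  refine ⟨(y, F (ContinuousLinearMap.snd ℂ Y ℂ)), ?_⟩
  ext w
  have h1 : w = (w.comp (ContinuousLinearMap.inl ℂ Y ℂ)).comp (ContinuousLinearMap.fst ℂ Y ℂ) +
      w (0, 1) • ContinuousLinearMap.snd ℂ Y ℂ := by
    refine ContinuousLinearMap.ext fun p => ?_
    obtain ⟨a, b⟩ := p
    show w (a, b) = w (a, 0) + w (0, 1) * b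
    have e : ((a, b) : Y × ℂ) = (a, 0) + b • ((0 : Y), (1 : ℂ)) := by simp
    rw [e, map_add, map_smul, smul_eq_mul, mul_comm b]
  have h2 := congrArg (fun G : StrongDual ℂ (StrongDual ℂ Y) =>
    G (w.comp (ContinuousLinearMap.inl ℂ Y ℂ))) hy
  have h3 : w (y, 0) = F ((w.comp (ContinuousLinearMap.inl ℂ Y ℂ)).comp
    (ContinuousLinearMap.fst ℂ Y ℂ)) := h2
  show w (y, F (ContinuousLinearMap.snd ℂ Y ℂ)) = F w
  conv_rhs => rw [h1, map_add, map_smul, ← h3]
  set c := F (ContinuousLinearMap.snd ℂ Y ℂ)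
  have e : ((y, c) : Y × ℂ) = (y, 0) + c • ((0 : Y), (1 : ℂ)) := by simp
  rw [e, map_add, map_smul, smul_eq_mul, smul_eq_mul, mul_comm]

theorem HC.prodC {N : Y →L[ℂ] Y} (hN : HC N) (μ : ℂ) :
    HC (N.prodMap (μ • (1 : ℂ →L[ℂ] ℂ))) := by
  obtain ⟨R, Ψ, hΨ⟩ := hN
  set R' : ℝ := max R ‖μ‖ with hR'
  have hR : R ≤ R' := le_max_left _ _
  have hμ : μ ∈ closedBall (0:ℂ) R' := mem_closedBall_zero_iff.2 (le_max_right _ _)
  let f : C(DD R, DD R') := ⟨fun z => ⟨z, closedBall_subset_closedBall hR z.2⟩, by fun_prop⟩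
  let Ψ₁ : C(DD R', ℂ) →ₐ[ℂ] (Y →L[ℂ] Y) := Ψ.comp (ContinuousMap.compRightAlgHom ℂ ℂ f)
  have hΨ₁ : Continuous Ψ₁ := hΨ.cont.comp (ContinuousMap.compRightAlgHom_continuous ℂ ℂ f)
  let Ψ₂ : C(DD R', ℂ) →ₐ[ℂ] (Y × ℂ →L[ℂ] Y × ℂ) := AlgHom.ofLinearMap
    { toFun := fun g => (Ψ₁ g).prodMap (g ⟨μ, hμ⟩ • (1 : ℂ →L[ℂ] ℂ))
      map_add' := by
        intro g h
        refine ContinuousLinearMap.ext fun p => ?_
        show ((Ψ₁ (g + h)) p.1, (g ⟨μ, hμ⟩ + h ⟨μ, hμ⟩) * p.2) =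
          (Ψ₁ g p.1, g ⟨μ, hμ⟩ * p.2) + (Ψ₁ h p.1, h ⟨μ, hμ⟩ * p.2)
        rw [map_add, Prod.mk_add_mk, add_mul]
        rfl
      map_smul' := by
        intro c g
        refine ContinuousLinearMap.ext fun p => ?_
        show ((Ψ₁ (c • g)) p.1, (c * g ⟨μ, hμ⟩) * p.2) =
          c • (Ψ₁ g p.1, g ⟨μ, hμ⟩ * p.2)
        rw [map_smul, Prod.smul_mk, smul_eq_mul, mul_assoc]
        rfl }
    (by
      refine ContinuousLinearMap.ext fun p => ?_
      show ((Ψ₁ 1) p.1, (1 : ℂ) * p.2) = p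
      rw [map_one, one_mul]
      rfl)
    (by
      intro g h
      refine ContinuousLinearMap.ext fun p => ?_
      show ((Ψ₁ (g * h)) p.1, (g ⟨μ, hμ⟩ * h ⟨μ, hμ⟩) * p.2) =
        (Ψ₁ g (Ψ₁ h p.1), g ⟨μ, hμ⟩ * (h ⟨μ, hμ⟩ * p.2))
      rw [map_mul, mul_assoc]
      rfl)
  refine ⟨R', Ψ₂, lt_of_lt_of_le hΨ.pos hR, ?_, ?_⟩
  · have h1 : Continuous fun g : C(DD R', ℂ) =>
        ContinuousLinearMap.prodMapL ℂ Y Y ℂ ℂ (Ψ₁ g, g ⟨μ, hμ⟩ • (1 : ℂ →L[ℂ] ℂ)) := by
      refine (ContinuousLinearMap.continuous _).comp (hΨ₁.prodMk ?_)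
      exact (continuous_eval_const (F := C(DD R', ℂ)) _).smul continuous_const
    exact h1
  · have h1 := hΨ.id
    show (Ψ ((⟨Subtype.val, continuous_subtype_val⟩ : C(DD R', ℂ)).comp f)).prodMap
      (μ • (1 : ℂ →L[ℂ] ℂ)) = _
    rw [← h1]
    rfl

end prod

variable {X : Type} [NormedAddCommGroup X] [NormedSpace ℂ X]

/-- functionals which vanish on the kernel factor through the operator -/
theorem factor {Y : Type} [NormedAddCommGroup Y] [NormedSpace ℂ Y] [CompleteSpace X]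
    [CompleteSpace Y] {S : X →L[ℂ] Y}
    (hcl : IsClosed (LinearMap.range (S : X →ₗ[ℂ] Y) : Set Y)) {f : X →L[ℂ] ℂ}
    (hf : ∀ x, S x = 0 → f x = 0) : ∃ y : Y →L[ℂ] ℂ, ∀ x, f x = y (S x) := by
  set Y0 := LinearMap.range (S : X →ₗ[ℂ] Y) with hY0
  have hc : CompleteSpace Y0 := hcl.completeSpace_coe
  let S' : X →L[ℂ] Y0 := S.codRestrict Y0 (fun x => ⟨x, rfl⟩)
  have hsur : Function.Surjective S' := by
    rintro ⟨_, x, rfl⟩
    exact ⟨x, rfl⟩
  obtain ⟨C, hC0, hC⟩ := ContinuousLinearMap.exists_preimage_norm_le S' hsur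
  choose g hg1 hg2 using hC
  have hfg : ∀ x, f (g (S' x)) = f x := by
    intro x
    have h1 : S (g (S' x) - x) = 0 := by
      rw [map_sub, sub_eq_zero]
      exact congrArg Subtype.val (hg1 (S' x))
    have h2 := hf _ h1
    rw [map_sub, sub_eq_zero] at h2
    exact h2
  let L : Y0 →ₗ[ℂ] ℂ :=
    { toFun := fun y => f (g y)
      map_add' := by
        intro y z
        have h1 : S (g (y + z) - (g y + g z)) = 0 := by
          rw [map_sub, map_add, sub_eq_zero]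
          have e1 : S (g (y + z)) = ((y + z : Y0) : Y) := congrArg Subtype.val (hg1 (y + z))
          have e2 : S (g y) = (y : Y) := congrArg Subtype.val (hg1 y)
          have e3 : S (g z) = (z : Y) := congrArg Subtype.val (hg1 z)
          rw [e1, e2, e3]
          rfl
        have h2 := hf _ h1
        rw [map_sub, map_add, sub_eq_zero] at h2
        exact h2
      map_smul' := by
        intro c y
        have h1 : S (g (c • y) - c • g y) = 0 := by
          rw [map_sub, map_smul, sub_eq_zero]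
          have e1 : S (g (c • y)) = ((c • y : Y0) : Y) := congrArg Subtype.val (hg1 (c • y))
          have e2 : S (g y) = (y : Y) := congrArg Subtype.val (hg1 y)
          rw [e1, e2]
          rfl
        have h2 := hf _ h1
        rw [map_sub, map_smul, sub_eq_zero] at h2
        exact h2 }
  let L' : Y0 →L[ℂ] ℂ := L.mkContinuous (‖f‖ * C) (fun y => by
    show ‖f (g y)‖ ≤ _
    rw [mul_assoc]
    exact (f.le_opNorm _).trans (mul_le_mul_of_nonneg_left (hg2 y) (norm_nonneg f)))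
  obtain ⟨y, hy, -⟩ := exists_extension_norm_eq Y0 L'
  refine ⟨y, fun x => ?_⟩
  have h1 := hy (S' x)
  rw [← hfg x]
  exact h1.symm

theorem fredProd {Y : Type} [NormedAddCommGroup Y] [NormedSpace ℂ Y] {S : X →L[ℂ] Y}
    (hS : S.IsFredholm) (f : X →L[ℂ] ℂ) : (S.prod f).IsFredholm := by
  obtain ⟨V, h1, h2⟩ := hS.exists_isQuasiInverse
  refine ContinuousLinearMap.IsFredholm.of_isQuasiInverse
    (v := V.comp (ContinuousLinearMap.fst ℂ Y ℂ)) ⟨?_, ?_⟩
  · exact h1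
  · unfold LinearMap.IsRightQuasiInverse at h2 ⊢
    rw [LinearMap.FiniteRangeSetoid.equiv_iff_hasFiniteRange] at h2 ⊢
    have e : ((S.prod f : X →L[ℂ] Y × ℂ) : X →ₗ[ℂ] Y × ℂ) ∘ₗ
        ((V.comp (ContinuousLinearMap.fst ℂ Y ℂ) : Y × ℂ →L[ℂ] X) : Y × ℂ →ₗ[ℂ] X) -
          LinearMap.id =
        (LinearMap.inl ℂ Y ℂ ∘ₗ ((S : X →ₗ[ℂ] Y) ∘ₗ (V : Y →ₗ[ℂ] X) - LinearMap.id)) ∘ₗ
          LinearMap.fst ℂ Y ℂ +
        LinearMap.inr ℂ Y ℂ ∘ₗ ((f : X →ₗ[ℂ] ℂ) ∘ₗ (V : Y →ₗ[ℂ] X) ∘ₗ LinearMap.fst ℂ Y ℂ -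
          LinearMap.snd ℂ Y ℂ) := by
      refine LinearMap.ext fun p => ?_
      obtain ⟨y, c⟩ := p
      show (S (V y), f (V y)) - (y, c) = (S (V y) - y, 0) + (0, f (V y) - c)
      simp
    rw [e]
    exact ((h2.comp_left _).comp_right _).add
      (LinearMap.HasFiniteRange.of_isNoetherian_rng.comp_left _)

theorem fred_aux [CompleteSpace X] {T : X →L[ℂ] X} (n : ℕ) : ∀ (Y : Type)
    [NormedAddCommGroup Y] [NormedSpace ℂ Y] [CompleteSpace Y], Refl Y → ∀ N : Y →L[ℂ] Y, HC N →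
    ∀ S : X →L[ℂ] Y, S.IsFredholm → finrank ℂ (LinearMap.ker (S : X →ₗ[ℂ] Y)) ≤ n →
    ∀ (u : Y) (v : X →L[ℂ] ℂ), (∀ x, S (T x) = N (S x) + v x • u) → Conc T := by
  induction n with
  | zero =>
    intro Y _ _ _ hY N hN S hS hk u v h
    have hfd := hS.finite_ker
    have hk' : LinearMap.ker (S : X →ₗ[ℂ] Y) = ⊥ := by
      rw [← Submodule.finrank_eq_zero (R := ℂ)]
      exact Nat.le_zero.1 hk
    have hinj : Function.Injective S := LinearMap.ker_eq_bot.1 hk'
    obtain ⟨v₂, hv₂⟩ := factor hS.isClosed_range (f := v) (fun x hx => by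
      have : x = 0 := hinj (by rw [hx, map_zero])
      rw [this, map_zero])
    obtain ⟨R, Ψ, hΨ⟩ := hN
    exact inj_case hY hΨ hinj hS.isClosed_range hS.finite_coker (u := u) (v := v₂) (fun x => by
      rw [h x, T1_apply, hv₂])
  | succ n ih =>
    intro Y _ _ _ hY N hN S hS hk u v h
    have hfd := hS.finite_ker
    by_cases hle : finrank ℂ (LinearMap.ker (S : X →ₗ[ℂ] Y)) ≤ n
    · exact ih Y hY N hN S hS hle u v h
    have hkn : finrank ℂ (LinearMap.ker (S : X →ₗ[ℂ] Y)) = n + 1 := by omega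
    have hkne : LinearMap.ker (S : X →ₗ[ℂ] Y) ≠ ⊥ := by
      intro h0
      rw [h0, finrank_bot] at hkn
      omega
    by_cases hv : ∀ x ∈ LinearMap.ker (S : X →ₗ[ℂ] Y), v x = 0
    · obtain ⟨c, x, -, hx0, hx⟩ := exists_eig T (LinearMap.ker (S : X →ₗ[ℂ] Y)) hfd hkne
        (fun x hx => by
          have h1 : S x = 0 := hx
          have h2 : S (T x) = 0 := by rw [h, hv x hx, h1, map_zero, zero_smul, add_zero]
          exact h2)
      exact conc_of_eig hx0 hx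
    push Not at hv
    obtain ⟨x₀, hx₀, hvx₀⟩ := hv
    have hSx₀ : S x₀ = 0 := hx₀
    -- the point `μ`
    set μ : ℂ := ((‖T‖ * ‖(1 : X →L[ℂ] X)‖ + ‖N‖ * ‖(1 : Y →L[ℂ] Y)‖ + 1 : ℝ) : ℂ) with hμ
    have hμn : ‖μ‖ = ‖T‖ * ‖(1 : X →L[ℂ] X)‖ + ‖N‖ * ‖(1 : Y →L[ℂ] Y)‖ + 1 := by
      rw [hμ, Complex.norm_real, Real.norm_eq_abs, abs_of_nonneg (by positivity)]
    have hμT : IsUnit (algebraMap ℂ (X →L[ℂ] X) μ - T) := by
      refine spectrum.mem_resolventSet_of_norm_lt_mul (𝕜 := ℂ) (a := T) (k := μ) ?_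
      rw [hμn]
      have : 0 ≤ ‖N‖ * ‖(1 : Y →L[ℂ] Y)‖ := by positivity
      linarith
    have hμN : IsUnit (algebraMap ℂ (Y →L[ℂ] Y) μ - N) := by
      refine spectrum.mem_resolventSet_of_norm_lt_mul (𝕜 := ℂ) (a := N) (k := μ) ?_
      rw [hμn]
      have : 0 ≤ ‖T‖ * ‖(1 : X →L[ℂ] X)‖ := by positivity
      linarith
    obtain ⟨U, hU⟩ := hμT
    set f : X →L[ℂ] ℂ := -(v.comp (↑U⁻¹ : X →L[ℂ] X)) with hf
    have hfT : ∀ x, f (T x) = μ * f x + v x := by
      intro x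
      have h1 : (↑U⁻¹ : X →L[ℂ] X) ((U : X →L[ℂ] X) x) = x := uni' U x
      rw [hU] at h1
      have h2 : (algebraMap ℂ (X →L[ℂ] X) μ - T) x = μ • x - T x := by
        rw [Algebra.algebraMap_eq_smul_one]
        rfl
      rw [h2, map_sub, map_smul] at h1
      have h3 := congrArg v h1
      rw [map_sub, map_smul, smul_eq_mul] at h3
      show -(v ((↑U⁻¹ : X →L[ℂ] X) (T x))) = μ * -(v ((↑U⁻¹ : X →L[ℂ] X) x)) + v x
      linear_combination h3
    by_cases hfk : ∃ x ∈ LinearMap.ker (S : X →ₗ[ℂ] Y), f x ≠ 0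
    · -- one dimension less
      obtain ⟨x₁, hx₁, hfx₁⟩ := hfk
      refine ih (Y × ℂ) (Refl.prodC hY) (N.prodMap (μ • (1 : ℂ →L[ℂ] ℂ))) (hN.prodC μ) (S.prod f)
        (fredProd hS f) ?_ (u, 1) v (fun x => ?_)
      · have h1 : LinearMap.ker ((S.prod f : X →L[ℂ] Y × ℂ) : X →ₗ[ℂ] Y × ℂ) <
            LinearMap.ker (S : X →ₗ[ℂ] Y) := by
          refine lt_of_le_of_ne (fun x hx => ?_) (fun h0 => ?_)
          · have h2 : (S x, f x) = ((0 : Y), (0 : ℂ)) := hx
            exact (Prod.mk.inj h2).1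
          · rw [← h0] at hx₁
            have h2 : (S x₁, f x₁) = ((0 : Y), (0 : ℂ)) := hx₁
            exact hfx₁ (Prod.mk.inj h2).2
        have h2 := Submodule.finrank_lt_finrank_of_lt h1
        omega
      · show (S (T x), f (T x)) = (N (S x), μ * f x) + v x • (u, (1 : ℂ))
        rw [h x, hfT x]
        ext
        · simp
        · simp
    · -- impossible
      exfalso
      push Not at hfk
      obtain ⟨y, hy⟩ := factor hS.isClosed_range (f := f) (fun x hx => hfk x hx)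
      have h1 : ∀ x, y (N (S x)) - μ * y (S x) = (1 - y u) * v x := by
        intro x
        have e1 := hfT x
        rw [hy, hy, h x, map_add, map_smul, smul_eq_mul] at e1
        linear_combination e1
      have hyu : y u = 1 := by
        have e1 := h1 x₀
        rw [hSx₀, map_zero, map_zero, mul_zero, sub_zero] at e1
        have e2 : 1 - y u = 0 := by
          rcases mul_eq_zero.1 e1.symm with h0 | h0
          · exact h0
          · exact absurd h0 hvx₀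
        exact (sub_eq_zero.1 e2).symm
      set Y0 := LinearMap.range (S : X →ₗ[ℂ] Y) with hY0
      have hu : u ∈ Y0 := by
        refine ⟨(v x₀)⁻¹ • T x₀, ?_⟩
        show S ((v x₀)⁻¹ • T x₀) = u
        rw [map_smul, h, hSx₀, map_zero, zero_add, smul_smul, inv_mul_cancel₀ hvx₀, one_smul]
      have hAn : ∀ w ∈ An Y0, tr N w ∈ An Y0 := by
        rintro w hw _ ⟨x, rfl⟩
        show w (N (S x)) = 0
        have e1 : N (S x) = S (T x) - v x • u := by rw [h x]; abel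
        have e2 : w (S (T x)) = 0 := hw _ ⟨T x, rfl⟩
        rw [e1, map_sub, map_smul, e2, hw _ hu, smul_zero, sub_zero]
      have hAnfd : FiniteDimensional ℂ (An Y0) := An_fd hS.finite_coker
      have hsurN : Function.Surjective (fun y : Y => N y - μ • y) := by
        obtain ⟨W, hW⟩ := hμN
        intro y
        refine ⟨-((↑W⁻¹ : Y →L[ℂ] Y) y), ?_⟩
        have e1 : (W : Y →L[ℂ] Y) ((↑W⁻¹ : Y →L[ℂ] Y) y) = y := uni W y
        rw [hW] at e1
        have e2 : (algebraMap ℂ (Y →L[ℂ] Y) μ - N) ((↑W⁻¹ : Y →L[ℂ] Y) y) =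
            μ • (↑W⁻¹ : Y →L[ℂ] Y) y - N ((↑W⁻¹ : Y →L[ℂ] Y) y) := by
          rw [Algebra.algebraMap_eq_smul_one]
          rfl
        rw [e2] at e1
        show N (-((↑W⁻¹ : Y →L[ℂ] Y) y)) - μ • (-((↑W⁻¹ : Y →L[ℂ] Y) y)) = y
        rw [map_neg, smul_neg, ← e1]
        rw [e1]
        conv_rhs => rw [← e1]
        abel
      have hzero : ∀ w : Y →L[ℂ] ℂ, (∀ y, w (N y) - μ * w y = 0) → w = 0 := by
        intro w hw
        ext y
        obtain ⟨z, rfl⟩ := hsurN y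
        show w (N z - μ • z) = 0
        rw [map_sub, map_smul]
        exact hw z
      -- `tr N - μ` on the annihilator
      let D : An Y0 →ₗ[ℂ] An Y0 :=
        ((tr N : StrongDual ℂ Y →ₗ[ℂ] StrongDual ℂ Y) - μ • LinearMap.id).restrict
          (fun w hw => (An Y0).sub_mem (hAn w hw) ((An Y0).smul_mem μ hw))
      have hDinj : Function.Injective D := by
        rw [injective_iff_map_eq_zero]
        intro w hw
        apply Subtype.ext
        refine hzero _ fun y => ?_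
        have e1 := congrArg (fun w : An Y0 => (w : StrongDual ℂ Y) y) hw
        exact e1
      have hDsur : Function.Surjective D :=
        (LinearMap.injective_iff_surjective (K := ℂ) (V := An Y0) (f := D)).1 hDinj
      have hz : (tr N - μ • (1 : StrongDual ℂ Y →L[ℂ] StrongDual ℂ Y)) y ∈ An Y0 := by
        rintro _ ⟨x, rfl⟩
        show y (N (S x)) - μ * y (S x) = 0
        rw [h1 x, hyu, sub_self, zero_mul]
      obtain ⟨z₀, hz₀⟩ := hDsur ⟨_, hz⟩
      have h2 : y - (z₀ : StrongDual ℂ Y) = 0 := by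
        refine hzero _ fun x => ?_
        have e1 := congrArg (fun w : An Y0 => (w : StrongDual ℂ Y) x) hz₀
        have e2 : (z₀ : StrongDual ℂ Y) (N x) - μ * (z₀ : StrongDual ℂ Y) x =
            y (N x) - μ * y x := e1
        show y (N x) - (z₀ : StrongDual ℂ Y) (N x) - μ * (y x - (z₀ : StrongDual ℂ Y) x) = 0
        linear_combination -e2
      have h3 : y u = 0 := by
        rw [sub_eq_zero.1 h2]
        exact z₀.2 u hu
      rw [h3] at hyu
      exact zero_ne_one hyu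

/-- **Fredholm intertwining with a rank one defect.** -/
theorem fred [CompleteSpace X] {Y : Type} [NormedAddCommGroup Y] [NormedSpace ℂ Y]
    [CompleteSpace Y] (hY : Refl Y) {N : Y →L[ℂ] Y} (hN : HC N) {T : X →L[ℂ] X} {S : X →L[ℂ] Y}
    (hS : S.IsFredholm) {u : Y} {v : X →L[ℂ] ℂ} (h : ∀ x, S (T x) = N (S x) + v x • u) :
    Conc T :=
  fred_aux _ Y hY N hN S hS le_rfl u v h

end Pool.Agent.Q88.RF
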