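import Pool.Agent.Q88.RF.Fin

/-!
# Restrictions to invariant subspaces of finite codimension
-/

set_option autoImplicit false

namespace Pool.Agent.Q88.RF

open Pool.Agent.Q98.RB
open Module Filter Topology Set Metric

section general

variable {E : Type} [NormedAddCommGroup E] [NormedSpace ℂ E]

/-- the vectors with geometric growth of the powers -/
def Gr (B : E →L[ℂ] E) (r : ℝ) : Submodule ℂ E where
  carrier := {x | ∃ C : ℝ, ∀ k : ℕ, ‖(B ^ k) x‖ ≤ C * r ^ k}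
  add_mem' := by
    rintro x y ⟨C, hC⟩ ⟨D, hD⟩
    refine ⟨C + D, fun k => ?_⟩
    rw [map_add, add_mul]
    exact (norm_add_le _ _).trans (add_le_add (hC k) (hD k))
  zero_mem' := ⟨0, fun k => by simp⟩
  smul_mem' := by
    rintro c x ⟨C, hC⟩
    refine ⟨‖c‖ * C, fun k => ?_⟩
    rw [map_smul, norm_smul, mul_assoc]
    exact mul_le_mul_of_nonneg_left (hC k) (norm_nonneg c)

theorem Gr_inv {B Q : E →L[ℂ] E} {r : ℝ} (h : Q * B = B * Q) {x : E} (hx : x ∈ Gr B r) :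
    Q x ∈ Gr B r := by
  obtain ⟨C, hC⟩ := hx
  refine ⟨‖Q‖ * C, fun k => ?_⟩
  have h1 : Q * B ^ k = B ^ k * Q := (Commute.pow_right (show Commute Q B from h) k)
  have h2 : (B ^ k) (Q x) = Q ((B ^ k) x) :=
    (congrArg (fun A : E →L[ℂ] E => A x) h1).symm
  rw [h2, mul_assoc]
  exact (Q.le_opNorm _).trans (mul_le_mul_of_nonneg_left (hC k) (norm_nonneg Q))

theorem pow_eig {B : E →L[ℂ] E} {c : ℂ} {g : E} (h : B g = c • g) (k : ℕ) :
    (B ^ k) g = c ^ k • g := by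
  induction k with
  | zero => simp
  | succ k ih =>
    rw [pow_succ, ContinuousLinearMap.mul_apply, h, map_smul, ih, smul_smul, pow_succ, mul_comm]

/-- eigenvalues of the vectors of growth `r` -/
theorem eig_bound {B : E →L[ℂ] E} {r : ℝ} (hr : 0 < r) {c : ℂ} {g : E} (hg : g ∈ Gr B r)
    (h0 : g ≠ 0) (h : B g = c • g) : ‖c‖ ≤ r := by
  obtain ⟨C, hC⟩ := hg
  by_contra hcon
  push Not at hcon
  have hg0 : 0 < ‖g‖ := norm_pos_iff.2 h0
  have h1 : ∀ k : ℕ, (‖c‖ / r) ^ k ≤ C / ‖g‖ := by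
    intro k
    have h2 := hC k
    rw [pow_eig h, norm_smul, norm_pow] at h2
    rw [div_pow, div_le_div_iff₀ (by positivity) hg0]
    linarith
  have h3 : 1 < ‖c‖ / r := (one_lt_div hr).2 hcon
  obtain ⟨k, hk⟩ := pow_unbounded_of_one_lt (C / ‖g‖) h3
  exact absurd (h1 k) (not_le.2 hk)

/-- an eigenvector of small eigenvalue -/
theorem eig_of_grow {B : E →L[ℂ] E} {r : ℝ} (hr : 0 < r) (V : Submodule ℂ E)
    (hfd : FiniteDimensional ℂ V) (hV : ∀ x ∈ V, B x ∈ V) {x : E} (hxV : x ∈ V) (hx : x ∈ Gr B r)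
    (hx0 : x ≠ 0) : ∃ (c : ℂ) (g : E), g ∈ V ∧ g ≠ 0 ∧ B g = c • g ∧ ‖c‖ ≤ r := by
  obtain ⟨c, g, hg, hg0, hBg⟩ := exists_eig B (V ⊓ Gr B r)
    (Submodule.finiteDimensional_of_le (inf_le_left : V ⊓ Gr B r ≤ V))
    (fun h => hx0 (by
      have : x ∈ V ⊓ Gr B r := ⟨hxV, hx⟩
      rw [h, Submodule.mem_bot] at this
      exact this))
    (fun y hy => ⟨hV y hy.1, Gr_inv rfl hy.2⟩)
  exact ⟨c, g, hg.1, hg0, hBg, eig_bound hr hg.2 hg0 hBg⟩

/-- chains are the vectors of growth `r` -/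
theorem chain_iff {T : E →L[ℂ] E} {a : ℂ} {r : ℝ} :
    HasCh T a r ↔ ∃ x, x ≠ 0 ∧ x ∈ Gr (T - a • (1 : E →L[ℂ] E)) r := by
  constructor
  · rintro ⟨Y, ⟨h1, C, h2⟩, h3⟩
    refine ⟨Y 0, h3, C, fun k => ?_⟩
    have h4 : ∀ k : ℕ, ((T - a • (1 : E →L[ℂ] E)) ^ k) (Y 0) = Y k := by
      intro k
      induction k with
      | zero => simp
      | succ k ih =>
        rw [pow_succ', ContinuousLinearMap.mul_apply, ih, ← h1 k]
        rfl
    rw [h4]
    exact h2 k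
  · rintro ⟨x, hx0, C, hC⟩
    refine ⟨fun k => ((T - a • (1 : E →L[ℂ] E)) ^ k) x, ⟨fun k => ?_, C, hC⟩, by simpa using hx0⟩
    show _ = ((T - a • (1 : E →L[ℂ] E)) ^ (k + 1)) x
    rw [pow_succ', ContinuousLinearMap.mul_apply]
    rfl

/-- algebraic operators have eigenvectors -/
theorem eig_of_alg {T : E →L[ℂ] E} {p : Polynomial ℂ} (hp : p ≠ 0)
    (h : Polynomial.aeval T p = 0) {x : E} (hx : x ≠ 0) : ∃ (c : ℂ) (g : E), g ≠ 0 ∧ T g = c • g := by
  have hint : IsIntegral ℂ T := by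
    refine ⟨Polynomial.C (p.leadingCoeff)⁻¹ * p, ?_, ?_⟩
    · exact Polynomial.monic_C_mul_of_mul_leadingCoeff_eq_one
        (inv_mul_cancel₀ (Polynomial.leadingCoeff_ne_zero.2 hp))
    · rw [← Polynomial.aeval_def, map_mul, h, mul_zero]
  have hne : Nontrivial (E →L[ℂ] E) := by
    refine ⟨1, 0, fun h0 => hx ?_⟩
    have := congrArg (fun A : E →L[ℂ] E => A x) h0
    simpa using this
  obtain ⟨c, hc⟩ := Complex.exists_root (f := minpoly ℂ T) (by
    exact minpoly.degree_pos hint)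
  obtain ⟨q, hq⟩ := Polynomial.dvd_iff_isRoot.2 hc
  have hq0 : Polynomial.aeval T q ≠ 0 := by
    intro h1
    have hqne : q ≠ 0 := by
      rintro rfl
      rw [mul_zero] at hq
      exact minpoly.ne_zero hint hq
    have h2 := minpoly.degree_le_of_ne_zero ℂ T hqne h1
    rw [hq, Polynomial.degree_mul, Polynomial.degree_X_sub_C,
      Polynomial.degree_eq_natDegree hqne] at h2
    have h3 : (1 + q.natDegree : ℕ) ≤ q.natDegree := by exact_mod_cast h2
    omega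
  obtain ⟨y, hy⟩ : ∃ y, Polynomial.aeval T q y ≠ 0 := by
    by_contra hcon
    push Not at hcon
    exact hq0 (ContinuousLinearMap.ext hcon)
  refine ⟨c, Polynomial.aeval T q y, hy, ?_⟩
  have h1 := minpoly.aeval ℂ T
  rw [hq, map_mul, map_sub, Polynomial.aeval_X, Polynomial.aeval_C] at h1
  have h2 := congrArg (fun A : E →L[ℂ] E => A y) h1
  have h3 : T (Polynomial.aeval T q y) - c • Polynomial.aeval T q y = 0 := by
    simpa [Algebra.algebraMap_eq_smul_one] using h2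
  exact sub_eq_zero.1 h3

end general

end Pool.Agent.Q88.RF
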