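import Pool.Agent.Q88.RF.Fred

/-!
# Defects with range in the orbit of one vector
-/

set_option autoImplicit false

namespace Pool.Agent.Q88.RF

open Pool.Agent.Q98.RB
open Module Filter Topology Set Metric
open scoped LinearMap.FiniteRangeSetoid

section fr

variable {X Y Z : Type} [NormedAddCommGroup X] [NormedSpace ℂ X] [NormedAddCommGroup Y]
  [NormedSpace ℂ Y] [NormedAddCommGroup Z] [NormedSpace ℂ Z]

/-- finite rank -/
def Fr (A : X →L[ℂ] Y) : Prop := (A : X →ₗ[ℂ] Y).HasFiniteRange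

theorem Fr.add {A B : X →L[ℂ] Y} (hA : Fr A) (hB : Fr B) : Fr (A + B) :=
  LinearMap.HasFiniteRange.add hA hB

theorem Fr.sub {A B : X →L[ℂ] Y} (hA : Fr A) (hB : Fr B) : Fr (A - B) :=
  LinearMap.HasFiniteRange.sub hA hB

theorem Fr.left {A : X →L[ℂ] Y} (hA : Fr A) (B : Y →L[ℂ] Z) : Fr (B.comp A) :=
  LinearMap.HasFiniteRange.comp_left hA (B : Y →ₗ[ℂ] Z)

theorem Fr.right {A : Y →L[ℂ] Z} (hA : Fr A) (B : X →L[ℂ] Y) : Fr (A.comp B) :=
  LinearMap.HasFiniteRange.comp_right hA (B : X →ₗ[ℂ] Y)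

theorem Fr.rank (u : Y) (v : X →L[ℂ] ℂ) : Fr (v.smulRight u) := by
  have h : ((v.smulRight u : X →L[ℂ] Y) : X →ₗ[ℂ] Y) =
      (LinearMap.toSpanSingleton ℂ Y u) ∘ₗ (v : X →ₗ[ℂ] ℂ) := by
    ext x
    simp
  unfold Fr
  rw [h]
  exact LinearMap.HasFiniteRange.of_isNoetherian_rng.comp_left _

theorem Fr.zero : Fr (0 : X →L[ℂ] Y) := LinearMap.HasFiniteRange.zero

theorem Fr.sum {ι : Type} (s : Finset ι) {A : ι → X →L[ℂ] Y} (h : ∀ i ∈ s, Fr (A i)) :
    Fr (∑ i ∈ s, A i) := by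
  classical
  induction s using Finset.induction_on with
  | empty => simpa using Fr.zero
  | insert a s ha ih =>
    rw [Finset.sum_insert ha]
    exact (h a (Finset.mem_insert_self _ _)).add
      (ih fun i hi => h i (Finset.mem_insert_of_mem hi))

/-- norm limits of operators of finite rank -/
def Ap (A : X →L[ℂ] Y) : Prop := ∀ ε : ℝ, 0 < ε → ∃ F : X →L[ℂ] Y, Fr F ∧ ‖A - F‖ < ε

theorem Ap.left {A : X →L[ℂ] Y} (hA : Ap A) (B : Y →L[ℂ] Z) : Ap (B.comp A) := by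
  intro ε hε
  obtain ⟨F, hF, h⟩ := hA (ε / (‖B‖ + 1)) (by positivity)
  refine ⟨B.comp F, hF.left B, ?_⟩
  rw [← ContinuousLinearMap.comp_sub]
  calc ‖B.comp (A - F)‖ ≤ ‖B‖ * ‖A - F‖ := ContinuousLinearMap.opNorm_comp_le _ _
    _ ≤ ‖B‖ * (ε / (‖B‖ + 1)) := mul_le_mul_of_nonneg_left h.le (norm_nonneg B)
    _ < ε := by
      have : 0 ≤ ‖B‖ := norm_nonneg B
      rw [← mul_div_assoc, div_lt_iff₀ (by positivity)]
      nlinarith

theorem Ap.right {A : Y →L[ℂ] Z} (hA : Ap A) (B : X →L[ℂ] Y) : Ap (A.comp B) := by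
  intro ε hε
  obtain ⟨F, hF, h⟩ := hA (ε / (‖B‖ + 1)) (by positivity)
  refine ⟨F.comp B, hF.right B, ?_⟩
  rw [← ContinuousLinearMap.sub_comp]
  calc ‖(A - F).comp B‖ ≤ ‖A - F‖ * ‖B‖ := ContinuousLinearMap.opNorm_comp_le _ _
    _ ≤ (ε / (‖B‖ + 1)) * ‖B‖ := mul_le_mul_of_nonneg_right h.le (norm_nonneg B)
    _ < ε := by
      have : 0 ≤ ‖B‖ := norm_nonneg B
      rw [div_mul_eq_mul_div, div_lt_iff₀ (by positivity)]
      nlinarith

theorem Ap.hasSum {ι : Type} {A : ι → X →L[ℂ] Y} {B : X →L[ℂ] Y} (h : ∀ i, Fr (A i))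
    (hs : HasSum A B) : Ap B := by
  intro ε hε
  have h1 := (tendsto_iff_norm_sub_tendsto_zero.1 hs).eventually (gt_mem_nhds hε)
  obtain ⟨s, hs⟩ := h1.exists
  exact ⟨∑ i ∈ s, A i, Fr.sum s fun i _ => h i, by rwa [norm_sub_rev]⟩

/-- `1 + A` is a left quasi-unit -/
theorem Ap.unit [CompleteSpace X] {A : X →L[ℂ] X} (hA : Ap A) :
    ∃ (U : (X →L[ℂ] X)ˣ) (F : X →L[ℂ] X), Fr F ∧ 1 + A = (U : X →L[ℂ] X) + F := by
  obtain ⟨F, hF, h⟩ := hA 1 one_pos
  have h1 : ‖F - A‖ < 1 := by rwa [norm_sub_rev]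
  refine ⟨Units.oneSub (F - A) h1, F, hF, ?_⟩
  rw [Units.val_oneSub]
  abel

end fr

section fredholm

variable {X Y : Type} [NormedAddCommGroup X] [NormedSpace ℂ X] [NormedAddCommGroup Y]
  [NormedSpace ℂ Y]

theorem fred_iff {S : X →L[ℂ] Y} : S.IsFredholm ↔
    ∃ V : Y →L[ℂ] X, Fr (V.comp S - 1) ∧ Fr (S.comp V - 1) := by
  rw [ContinuousLinearMap.isFredholm_iff_exists_isQuasiInverse]
  refine exists_congr fun V => ?_
  unfold LinearMap.IsQuasiInverse LinearMap.IsLeftQuasiInverse LinearMap.IsRightQuasiInverse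
  rw [LinearMap.FiniteRangeSetoid.equiv_iff_hasFiniteRange,
    LinearMap.FiniteRangeSetoid.equiv_iff_hasFiniteRange]
  exact Iff.rfl

/-- separate left and right inverses modulo operators of finite rank -/
theorem fred_of {S : X →L[ℂ] Y} {V W : Y →L[ℂ] X} (hV : Fr (V.comp S - 1))
    (hW : Fr (S.comp W - 1)) : S.IsFredholm := by
  refine fred_iff.2 ⟨V, hV, ?_⟩
  -- `V - W` is of finite rank
  have h1 : Fr (V - W) := by
    have e : V - W = (V.comp S - 1).comp W - V.comp (S.comp W - 1) := by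
      ext y
      simp
    rw [e]
    exact (hV.right W).sub (hW.left V)
  have e : S.comp V - 1 = S.comp (V - W) + (S.comp W - 1) := by
    ext y
    simp
  rw [e]
  exact (h1.left S).add hW

/-- perturbations by norm limits of operators of finite rank -/
theorem fred_add [CompleteSpace X] [CompleteSpace Y] {S A : X →L[ℂ] Y} (hS : S.IsFredholm)
    (hA : Ap A) : (S + A).IsFredholm := by
  obtain ⟨V, h1, h2⟩ := fred_iff.1 hS
  obtain ⟨U, F, hF, hU⟩ := (hA.left V).unit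
  obtain ⟨U', F', hF', hU'⟩ := (hA.right V).unit
  refine fred_of (V := (↑U⁻¹ : X →L[ℂ] X).comp V) (W := V.comp (↑U'⁻¹ : Y →L[ℂ] Y)) ?_ ?_
  · have e : ((↑U⁻¹ : X →L[ℂ] X).comp V).comp (S + A) - 1 =
        (↑U⁻¹ : X →L[ℂ] X).comp ((V.comp S - 1) + F) := by
      have e1 : V.comp (S + A) = (V.comp S - 1) + (U + F) := by
        rw [← hU, ContinuousLinearMap.comp_add]
        abel
      have e2 : (↑U⁻¹ : X →L[ℂ] X).comp (U : X →L[ℂ] X) = 1 := U.inv_mul
      rw [ContinuousLinearMap.comp_assoc, e1, ContinuousLinearMap.comp_add,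
        ContinuousLinearMap.comp_add, ContinuousLinearMap.comp_add, e2]
      abel
    rw [e]
    exact (h1.add hF).left _
  · have e : (S + A).comp (V.comp (↑U'⁻¹ : Y →L[ℂ] Y)) - 1 =
        ((S.comp V - 1) + F').comp (↑U'⁻¹ : Y →L[ℂ] Y) := by
      have e1 : (S + A).comp V = (S.comp V - 1) + (U' + F') := by
        rw [← hU', ContinuousLinearMap.add_comp]
        abel
      have e2 : (U' : Y →L[ℂ] Y).comp (↑U'⁻¹ : Y →L[ℂ] Y) = 1 := U'.mul_inv
      rw [← ContinuousLinearMap.comp_assoc, e1, ContinuousLinearMap.add_comp,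
        ContinuousLinearMap.add_comp, ContinuousLinearMap.add_comp, e2]
      abel
    rw [e]
    exact (h2.add hF').right _

end fredholm

section series

variable {X Y : Type} [NormedAddCommGroup X] [NormedSpace ℂ X] [NormedAddCommGroup Y]
  [NormedSpace ℂ Y]

/-- the operators which move the term `w ⊗ N ^ n u` to `(w T ^ n) ⊗ u` -/
noncomputable def Kn (T : X →L[ℂ] X) (N : Y →L[ℂ] Y) (u : Y) (w : X →L[ℂ] ℂ) (n : ℕ) :
    X →L[ℂ] Y :=
  ∑ j ∈ Finset.range n, (w.comp (T ^ (n - 1 - j))).smulRight ((N ^ j) u)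

theorem Kn_fr (T : X →L[ℂ] X) (N : Y →L[ℂ] Y) (u : Y) (w : X →L[ℂ] ℂ) (n : ℕ) :
    Fr (Kn T N u w n) := Fr.sum _ fun _ _ => Fr.rank _ _

theorem Kn_eq (T : X →L[ℂ] X) (N : Y →L[ℂ] Y) (u : Y) (w : X →L[ℂ] ℂ) (n : ℕ) (x : X) :
    Kn T N u w n (T x) + w x • (N ^ n) u = N (Kn T N u w n x) + w ((T ^ n) x) • u := by
  have e1 : Kn T N u w n (T x) = ∑ j ∈ Finset.range n, w ((T ^ (n - j)) x) • (N ^ j) u := by
    unfold Kn
    rw [sum_apply]
    refine Finset.sum_congr rfl fun j hj => ?_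
    rw [Finset.mem_range] at hj
    have e : n - j = n - 1 - j + 1 := by omega
    show w ((T ^ (n - 1 - j)) (T x)) • (N ^ j) u = _
    rw [e, pow_succ]
    rfl
  have e2 : N (Kn T N u w n x) =
      ∑ j ∈ Finset.range n, w ((T ^ (n - (j + 1))) x) • (N ^ (j + 1)) u := by
    unfold Kn
    rw [sum_apply, map_sum]
    refine Finset.sum_congr rfl fun j hj => ?_
    have e : n - 1 - j = n - (j + 1) := by omega
    show N (w ((T ^ (n - 1 - j)) x) • (N ^ j) u) = _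
    rw [map_smul, e, pow_succ']
    rfl
  rw [e1, e2]
  have h1 := Finset.sum_range_succ (fun j => w ((T ^ (n - j)) x) • (N ^ j) u) n
  have h2 := Finset.sum_range_succ' (fun j => w ((T ^ (n - j)) x) • (N ^ j) u) n
  rw [h1] at h2
  simpa using h2

theorem Kn_norm {T : X →L[ℂ] X} {N : Y →L[ℂ] Y} {C ρ : ℝ} (hρ : 0 < ρ)
    (hT : ∀ k, ‖T ^ k‖ ≤ C * ρ ^ k) (hN : ∀ k, ‖N ^ k‖ ≤ C * ρ ^ k) (u : Y) (w : X →L[ℂ] ℂ)
    (n : ℕ) : ‖Kn T N u w n‖ ≤ (C ^ 2 * ‖u‖ / ρ) * (n * ρ ^ n * ‖w‖) := by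
  have hC : 0 ≤ C := by
    have := (norm_nonneg _).trans (hT 0)
    simpa using this
  unfold Kn
  refine (norm_sum_le _ _).trans ?_
  have h1 : ∀ j ∈ Finset.range n, ‖(w.comp (T ^ (n - 1 - j))).smulRight ((N ^ j) u)‖ ≤
      C ^ 2 * ‖u‖ / ρ * (ρ ^ n * ‖w‖) := by
    intro j hj
    rw [Finset.mem_range] at hj
    rw [ContinuousLinearMap.norm_smulRight_apply]
    have e1 : ‖w.comp (T ^ (n - 1 - j))‖ ≤ ‖w‖ * (C * ρ ^ (n - 1 - j)) :=
      (ContinuousLinearMap.opNorm_comp_le _ _).trans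
        (mul_le_mul_of_nonneg_left (hT _) (norm_nonneg w))
    have e2 : ‖(N ^ j) u‖ ≤ C * ρ ^ j * ‖u‖ :=
      ((N ^ j).le_opNorm u).trans (mul_le_mul_of_nonneg_right (hN j) (norm_nonneg u))
    calc ‖w.comp (T ^ (n - 1 - j))‖ * ‖(N ^ j) u‖ ≤
          (‖w‖ * (C * ρ ^ (n - 1 - j))) * (C * ρ ^ j * ‖u‖) :=
          mul_le_mul e1 e2 (norm_nonneg _) (by positivity)
      _ = C ^ 2 * ‖u‖ * (ρ ^ (n - 1 - j) * ρ ^ j * ‖w‖) := by ring
      _ = C ^ 2 * ‖u‖ / ρ * (ρ ^ n * ‖w‖) := by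
        rw [← pow_add]
        have e : n = (n - 1 - j + j) + 1 := by omega
        conv_rhs => rw [e, pow_succ]
        field_simp
        ring
  refine (Finset.sum_le_sum h1).trans ?_
  rw [Finset.sum_const, Finset.card_range, nsmul_eq_mul]
  exact le_of_eq (by ring)

/-- **The defect of the intertwining has its range in the orbit of one vector.** -/
theorem ser [CompleteSpace X] [CompleteSpace Y] (hY : Refl Y) {N : Y →L[ℂ] Y} (hN : HC N)
    {T : X →L[ℂ] X} {S : X →L[ℂ] Y} (hS : S.IsFredholm) (u : Y) (w : ℕ → X →L[ℂ] ℂ) {C ρ : ℝ}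
    (hρ : 0 < ρ) (hTρ : ∀ k, ‖T ^ k‖ ≤ C * ρ ^ k) (hNρ : ∀ k, ‖N ^ k‖ ≤ C * ρ ^ k)
    (hw : Summable fun n : ℕ => (n + 1) * ρ ^ n * ‖w n‖)
    (h : ∀ x, HasSum (fun n => w n x • (N ^ n) u) (S (T x) - N (S x))) : Conc T := by
  have hC : 0 ≤ C := by
    have := (norm_nonneg _).trans (hTρ 0)
    simpa using this
  have hK : Summable fun n => Kn T N u (w n) n := by
    refine Summable.of_norm_bounded (hw.mul_left (C ^ 2 * ‖u‖ / ρ)) fun n => ?_
    refine (Kn_norm hρ hTρ hNρ u (w n) n).trans ?_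
    refine mul_le_mul_of_nonneg_left ?_ (by positivity)
    have : (0:ℝ) ≤ ρ ^ n * ‖w n‖ := by positivity
    nlinarith
  have hv : Summable fun n => (w n).comp (T ^ n) := by
    refine Summable.of_norm_bounded (hw.mul_left C) fun n => ?_
    refine (ContinuousLinearMap.opNorm_comp_le _ _).trans ?_
    calc ‖w n‖ * ‖T ^ n‖ ≤ ‖w n‖ * (C * ρ ^ n) :=
          mul_le_mul_of_nonneg_left (hTρ n) (norm_nonneg _)
      _ = C * (ρ ^ n * ‖w n‖) := by ring
      _ ≤ C * ((n + 1) * ρ ^ n * ‖w n‖) := by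
          refine mul_le_mul_of_nonneg_left ?_ hC
          have : (0:ℝ) ≤ n * (ρ ^ n * ‖w n‖) := by positivity
          nlinarith
  obtain ⟨K, hK⟩ := hK
  obtain ⟨v, hv⟩ := hv
  refine fred hY hN (S := S + K) (fred_add hS (Ap.hasSum (fun n => Kn_fr _ _ _ _ _) hK)) (u := u)
    (v := v) fun x => ?_
  have h1 : HasSum (fun n => Kn T N u (w n) n (T x)) (K (T x)) :=
    hK.mapL (ContinuousLinearMap.apply ℂ Y (T x))
  have h2 : HasSum (fun n => N (Kn T N u (w n) n x)) (N (K x)) :=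
    (hK.mapL (ContinuousLinearMap.apply ℂ Y x)).mapL N
  have h3 : HasSum (fun n => w n ((T ^ n) x) • u) (v x • u) :=
    (hv.mapL (ContinuousLinearMap.apply ℂ ℂ x)).smul_const u
  have h4 := h1.add (h x)
  have h5 := h2.add h3
  have h6 : (fun n => Kn T N u (w n) n (T x) + w n x • (N ^ n) u) =
      fun n => N (Kn T N u (w n) n x) + w n ((T ^ n) x) • u := by
    funext n
    exact Kn_eq T N u (w n) n x
  rw [h6] at h4
  have h7 := h4.unique h5
  show S (T x) + K (T x) = N (S x + K x) + v x • u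
  rw [map_add, add_assoc, ← h7]
  abel

end series

end Pool.Agent.Q88.RF
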